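import Mathlib

/-!
MP_9d29f5_al, project DM, block C (relative property (T)): definitions.
-/
set_option autoImplicit false

namespace Pool.Agent.H13.DM

universe u v

/-- A group H is a-T-menable (has the Haagerup property) if it acts by affine isometries on a
real Hilbert space E so that for every v in E and every r only finitely many h move v into the
ball of radius r (metrically proper action). -/
def ATMenable (H : Type u) [Group H] : Prop :=
  ∃ (E : Type v) (_ : NormedAddCommGroup E) (_ : InnerProductSpace ℝ E) (_ : CompleteSpace E)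
    (α : H →* (E ≃ᵃⁱ[ℝ] E)), ∀ (x : E) (r : ℝ), {h : H | ‖α h x‖ ≤ r}.Finite

/-- the torus -/
abbrev Tor (d : ℕ) := UnitAddTorus (Fin d)

/-- x maps to cos (2 pi <v, x>) on the torus -/
noncomputable def cosf {d : ℕ} (v : Fin d → ℤ) : C(Tor d, ℝ) :=
  ⟨fun x => (UnitAddTorus.mFourier v x).re, by fun_prop⟩

/-- The dual action of an integer matrix M on the torus: (x_i) maps to (sum_i M i j x_i)_j, so that
<M v, x> = <v, dualMap M x>. -/
def dualMap {d : ℕ} (M : Matrix (Fin d) (Fin d) ℤ) : C(Tor d, Tor d) :=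
  ⟨fun x j => ∑ i, M i j • x i, by fun_prop⟩

/-- positive definite function, real valued -/
def PosDefFun {Q : Type*} [Group Q] (f : Q → ℝ) : Prop :=
  f 1 = 1 ∧ (∀ g, f g⁻¹ = f g) ∧
  ∀ (s : Finset Q) (c : Q → ℝ), 0 ≤ ∑ g ∈ s, ∑ h ∈ s, c g * c h * f (g⁻¹ * h)

/-- (x_i) in R^d maps to its class in the torus -/
def toTor {d : ℕ} (x : Fin d → ℝ) : Tor d := fun i => ((x i : ℝ) : UnitAddCircle)

end Pool.Agent.H13.DM
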