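import Mathlib
import Pool.Agent.H13.DM.RelT.Defs

/-!
MP_9d29f5_al, project DM, block C, file Per (job DM-PER).
Prove the theorems in place (helper lemmas welcome).

PAPER PROOFS.
(2) far: for y in the torus choose the representative x_j in [-1/2,1/2) of y_j. If all |x_j| < r we are in the first case. Otherwise some
|x_j| >= r and 1 - cos(2 pi x_j) >= 1 - cos(2 pi min(r,1/2)) > 0; take C = 1/(1 - cos(2 pi min(r,1/2))), all other terms are >= 0.
(3) exists_per: G(y) = g(x) where x_j in [-1/2,1/2) is the representative of y_j (AddCircle.equivIco or toIcoMod (-1/2)).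
Continuity: toTor restricted to the closed cube of half side 1/2 is a quotient map (closed map from a compact space onto the torus), G o toTor = g on the closed cube, because g = 0
on the boundary region (norm x >= 1/4) and the representative of a boundary point is a boundary point. For norm x < 3/4 : if all |x_j| < 1/2 then G(toTor x) = g x. Otherwise
norm x >= 1/2 so g x = 0 and some representative coordinate is x_j - 1 or x_j + 1 (or +-1/2) of absolute value > 1/4, so G = 0 too.
(4) toTor_dual: dualMap M (toTor x) = toTor (M^T x).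
(5) mFourier_dualMap: mFourier v y = prod_j fourier (v_j) (y_j); expand.
-/

set_option autoImplicit false

namespace Pool.Agent.H13.DM

open Filter Topology

/-- the representative in `[-1/2, 1/2)` -/
noncomputable def perRep (y : UnitAddCircle) : ℝ := (AddCircle.equivIco (1 : ℝ) (-(1 / 2)) y : ℝ)

theorem perRep_coe (y : UnitAddCircle) : ((perRep y : ℝ) : UnitAddCircle) = y :=
  AddCircle.coe_equivIco

theorem perRep_mem (y : UnitAddCircle) : perRep y ∈ Set.Ico (-(1 / 2) : ℝ) (1 / 2) := by
  have h := (AddCircle.equivIco (1 : ℝ) (-(1 / 2)) y).2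
  refine ⟨h.1, lt_of_lt_of_le h.2 ?_⟩
  norm_num

theorem perRep_of_mem {x : ℝ} (h : x ∈ Set.Ico (-(1 / 2) : ℝ) (1 / 2)) :
    perRep (x : UnitAddCircle) = x := by
  apply AddCircle.equivIco_coe_of_mem
  refine ⟨h.1, lt_of_lt_of_le h.2 ?_⟩
  norm_num

theorem perRep_abs (y : UnitAddCircle) : |perRep y| = ‖y‖ := by
  have h := perRep_mem y
  have h1 : ‖((perRep y : ℝ) : UnitAddCircle)‖ = |perRep y| := by
    apply (AddCircle.norm_coe_eq_abs_iff (1 : ℝ) one_ne_zero).2
    rw [abs_one, abs_le]
    exact ⟨h.1, h.2.le⟩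
  rw [perRep_coe] at h1
  exact h1.symm

theorem perRep_cont {y : UnitAddCircle} (h : ‖y‖ < 1 / 2) : ContinuousAt perRep y := by
  have h1 : y ≠ ((-(1 / 2) : ℝ) : UnitAddCircle) := by
    rintro rfl
    have h2 : ‖(((-(1 / 2) : ℝ)) : UnitAddCircle)‖ = |(-(1 / 2) : ℝ)| := by
      apply (AddCircle.norm_coe_eq_abs_iff (1 : ℝ) one_ne_zero).2
      norm_num [abs_of_pos]
    rw [h2] at h
    norm_num [abs_of_pos] at h
  exact continuousAt_subtype_val.comp (AddCircle.continuousAt_equivIco (1 : ℝ) (-(1 / 2)) h1)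

theorem per_fourier_cos (y : UnitAddCircle) :
    ((fourier 1 y : ℂ)).re = Real.cos (2 * Real.pi * perRep y) := by
  conv_lhs => rw [← perRep_coe y]
  rw [fourier_coe_apply]
  have h1 : (2 * (Real.pi : ℂ) * Complex.I * ((1 : ℤ) : ℂ) * (perRep y : ℂ) / ((1 : ℝ) : ℂ)) =
      ((2 * Real.pi * perRep y : ℝ) : ℂ) * Complex.I := by
    push_cast
    ring
  rw [h1, Complex.exp_ofReal_mul_I_re]

theorem per_cosf {d : ℕ} (j : Fin d) (y : Tor d) :
    cosf (Pi.single j 1) y = Real.cos (2 * Real.pi * perRep (y j)) := by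
  change (UnitAddTorus.mFourier (Pi.single j 1) y).re = _
  rw [UnitAddTorus.mFourier_single, per_fourier_cos]

theorem mFourier_dualMap {d : ℕ} (M : Matrix (Fin d) (Fin d) ℤ) (v : Fin d → ℤ) (x : Tor d) :
    UnitAddTorus.mFourier v (dualMap M x) = UnitAddTorus.mFourier (M.mulVec v) x := by
  have hsum : ∀ (s : Finset (Fin d)) (f : Fin d → UnitAddCircle),
      ((AddCircle.toCircle (∑ i ∈ s, f i) : Circle) : ℂ) = ∏ i ∈ s, (AddCircle.toCircle (f i) : ℂ) := by
    classical
    intro s f
    induction s using Finset.induction_on with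
    | empty => simp
    | insert a s ha ih =>
      rw [Finset.sum_insert ha, Finset.prod_insert ha, AddCircle.toCircle_add, Circle.coe_mul, ih]
  change ∏ j, fourier (v j) (∑ i, M i j • x i) = ∏ i, fourier (M.mulVec v i) (x i)
  have h1 : ∀ j, (fourier (v j) (∑ i, M i j • x i) : ℂ) =
      ∏ i, (AddCircle.toCircle ((v j * M i j) • x i) : ℂ) := by
    intro j
    rw [fourier_apply, Finset.smul_sum, hsum]
    refine Finset.prod_congr rfl fun i _ => ?_
    rw [smul_smul]
  have h2 : ∀ i, (fourier (M.mulVec v i) (x i) : ℂ) =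
      ∏ j, (AddCircle.toCircle ((v j * M i j) • x i) : ℂ) := by
    intro i
    rw [fourier_apply, ← hsum, ← Finset.sum_smul]
    congr 3
    unfold Matrix.mulVec dotProduct
    exact Finset.sum_congr rfl fun j _ => mul_comm _ _
  rw [Finset.prod_congr rfl fun j _ => h1 j, Finset.prod_congr rfl fun i _ => h2 i,
    Finset.prod_comm]

theorem far {d : ℕ} (r : ℝ) (hr : 0 < r) : ∃ C : ℝ, 0 ≤ C ∧ ∀ y : Tor d,
    (∃ x : Fin d → ℝ, ‖x‖ < r ∧ toTor x = y) ∨
      1 ≤ C * ∑ j : Fin d, (1 - cosf (Pi.single j 1) y) := by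
  set ρ : ℝ := min r (1 / 2) with hρ
  have hρ0 : 0 < ρ := lt_min hr (by norm_num)
  have hρ1 : ρ ≤ 1 / 2 := min_le_right _ _
  have hπ := Real.pi_pos
  have hcos : Real.cos (2 * Real.pi * ρ) < 1 := by
    rw [← Real.cos_zero]
    apply Real.strictAntiOn_cos ⟨le_rfl, hπ.le⟩ ⟨by positivity, by nlinarith⟩
    positivity
  have hc : 0 < 1 - Real.cos (2 * Real.pi * ρ) := by linarith
  refine ⟨1 / (1 - Real.cos (2 * Real.pi * ρ)), by positivity, fun y => ?_⟩
  by_cases hy : ∀ j, |perRep (y j)| < r
  · left
    refine ⟨fun j => perRep (y j), ?_, ?_⟩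
    · rw [pi_norm_lt_iff hr]
      intro j
      rw [Real.norm_eq_abs]
      exact hy j
    · funext j
      exact perRep_coe (y j)
  · right
    push Not at hy
    obtain ⟨j, hj⟩ := hy
    have h1 : 1 - Real.cos (2 * Real.pi * ρ) ≤ 1 - cosf (Pi.single j 1) y := by
      rw [per_cosf]
      have h2 : Real.cos (2 * Real.pi * perRep (y j)) = Real.cos (2 * Real.pi * |perRep (y j)|) := by
        rcases abs_choice (perRep (y j)) with h | h
        · rw [h]
        · rw [h, mul_neg, Real.cos_neg]
      rw [h2]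
      have h3 : |perRep (y j)| ≤ 1 / 2 := by
        have := perRep_mem (y j)
        rw [abs_le]
        exact ⟨this.1, this.2.le⟩
      have h4 : ρ ≤ |perRep (y j)| := (min_le_left _ _).trans hj
      have h5 := Real.strictAntiOn_cos.antitoneOn (a := 2 * Real.pi * ρ)
        (b := 2 * Real.pi * |perRep (y j)|) ⟨by positivity, by nlinarith⟩
        ⟨by positivity, by nlinarith⟩ (by nlinarith)
      linarith
    have h2 : 1 - cosf (Pi.single j 1) y ≤ ∑ j : Fin d, (1 - cosf (Pi.single j 1) y) := by
      apply Finset.single_le_sum (f := fun j => 1 - cosf (Pi.single j 1) y) _ (Finset.mem_univ j)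
      intro i _
      rw [per_cosf]
      linarith [Real.cos_le_one (2 * Real.pi * perRep (y i))]
    rw [div_mul_eq_mul_div, one_mul, le_div_iff₀ hc, one_mul]
    exact h1.trans h2

theorem exists_per {d : ℕ} (g : (Fin d → ℝ) → ℝ) (hg : Continuous g)
    (hsupp : ∀ x, 1 / 4 ≤ ‖x‖ → g x = 0) (C : ℝ) (hC : ∀ x, |g x| ≤ C) :
    ∃ G : C(Tor d, ℝ), (∀ x, ‖x‖ < 3 / 4 → G (toTor x) = g x) ∧ ‖G‖ ≤ C := by
  have hbig : ∀ (y : Tor d) (j : Fin d), 1 / 4 < ‖y j‖ → g (fun i => perRep (y i)) = 0 := by
    intro y j hj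
    apply hsupp
    have h1 := norm_le_pi_norm (fun i => perRep (y i)) j
    rw [Real.norm_eq_abs, perRep_abs] at h1
    linarith
  have hcont : Continuous fun y : Tor d => g (fun i => perRep (y i)) := by
    rw [continuous_iff_continuousAt]
    intro y
    by_cases hy : ∃ j, 1 / 4 < ‖y j‖
    · obtain ⟨j, hj⟩ := hy
      have hopen : IsOpen {y' : Tor d | 1 / 4 < ‖y' j‖} :=
        isOpen_lt continuous_const ((continuous_apply j).norm)
      have hev : (fun y' : Tor d => g (fun i => perRep (y' i))) =ᶠ[𝓝 y] fun _ => (0 : ℝ) := by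
        filter_upwards [hopen.mem_nhds hj] with y' hy'
        exact hbig y' j hy'
      exact continuousAt_const.congr hev.symm
    · push Not at hy
      have h1 : ContinuousAt (fun y' : Tor d => fun i => perRep (y' i)) y := by
        rw [continuousAt_pi]
        intro i
        have h2 : ContinuousAt perRep (y i) := perRep_cont (lt_of_le_of_lt (hy i) (by norm_num))
        exact h2.comp (f := fun y' : Tor d => y' i) (continuous_apply i).continuousAt
      exact (hg.continuousAt).comp h1
  refine ⟨⟨_, hcont⟩, ?_, ?_⟩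
  · intro x hx
    change g (fun i => perRep (toTor x i)) = g x
    by_cases hall : ∀ j, |x j| < 1 / 2
    · congr 1
      funext j
      have := abs_lt.1 (hall j)
      exact perRep_of_mem ⟨this.1.le, this.2⟩
    · push Not at hall
      obtain ⟨j, hj⟩ := hall
      have hxj : |x j| < 3 / 4 := by
        have := norm_le_pi_norm x j
        rw [Real.norm_eq_abs] at this
        linarith
      have hgx : g x = 0 := by
        apply hsupp
        have := norm_le_pi_norm x j
        rw [Real.norm_eq_abs] at this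
        linarith
      rw [hgx]
      apply hbig (toTor x) j
      change 1 / 4 < ‖((x j : ℝ) : UnitAddCircle)‖
      rcases le_or_gt 0 (x j) with h0 | h0
      · rw [abs_of_nonneg h0] at hj hxj
        have h1 : ((x j : ℝ) : UnitAddCircle) = ((x j - 1 : ℝ) : UnitAddCircle) := by
          have := AddCircle.coe_add_period (1 : ℝ) (x j - 1)
          rw [sub_add_cancel] at this
          exact this
        have h2 : ‖((x j - 1 : ℝ) : UnitAddCircle)‖ = |x j - 1| := by
          apply (AddCircle.norm_coe_eq_abs_iff (1 : ℝ) one_ne_zero).2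
          rw [abs_one, abs_le]
          constructor <;> linarith
        rw [h1, h2, abs_of_nonpos (by linarith)]
        linarith
      · rw [abs_of_neg h0] at hj hxj
        have h1 : ((x j : ℝ) : UnitAddCircle) = ((x j + 1 : ℝ) : UnitAddCircle) :=
          (AddCircle.coe_add_period (1 : ℝ) (x j)).symm
        have h2 : ‖((x j + 1 : ℝ) : UnitAddCircle)‖ = |x j + 1| := by
          apply (AddCircle.norm_coe_eq_abs_iff (1 : ℝ) one_ne_zero).2
          rw [abs_one, abs_le]
          constructor <;> linarith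
        rw [h1, h2, abs_of_nonneg (by linarith)]
        linarith
  · rw [ContinuousMap.norm_le _ ((abs_nonneg _).trans (hC 0))]
    intro y
    exact hC _

theorem toTor_dual {d : ℕ} (M : Matrix (Fin d) (Fin d) ℤ) (x : Fin d → ℝ) :
    dualMap M (toTor x) = toTor ((M.map (Int.cast : ℤ → ℝ)).transpose.mulVec x) := by
  funext j
  change ∑ i, M i j • ((x i : ℝ) : UnitAddCircle) =
    (((M.map (Int.cast : ℤ → ℝ)).transpose.mulVec x j : ℝ) : UnitAddCircle)
  have h1 : (M.map (Int.cast : ℤ → ℝ)).transpose.mulVec x j = ∑ i, M i j • x i := by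
    rw [Matrix.mulVec_eq_sum, Finset.sum_apply]
    refine Finset.sum_congr rfl fun i _ => ?_
    simp [Matrix.col, mul_comm]
  rw [h1]
  have h2 := map_sum (QuotientAddGroup.mk' (AddSubgroup.zmultiples (1 : ℝ)))
    (fun i => M i j • x i) Finset.univ
  exact h2.symm

theorem continuous_toTor {d : ℕ} : Continuous (toTor (d := d)) :=
  continuous_pi fun i => (AddCircle.continuous_mk' (1 : ℝ)).comp (continuous_apply i)

end Pool.Agent.H13.DM
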