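import Mathlib
import Pool.Agent.H13.DM.RelT.Defs
import Pool.Agent.H13.DM.RelT.Per

/-!
MP_9d29f5_al, project DM, block C, file Functional (job DM-FUNC).
Prove exists_functional in place (helper lemmas welcome). Herglotz-Bochner for Z^d in the form we need,
together with the quasi-invariance, without measures.

PAPER PROOF. Write k(p,q) = f(p^-1 q), a symmetric positive semidefinite kernel on Q which is left invariant.
For v in Z^d write a_v = a(ofAdd v). Let B_n = [0,n)^d in Z^d, and let Lam_n^{g,h}(phi) for g, h in Q and phi in C(Tor d, R) be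
  Lam_n^{g,h}(phi) = average over x in the finite subgroup (1/(2n+1)) Z^d / Z^d of the torus of phi(x) F_n^{g,h}(x),
  F_n^{g,h}(x) = n^-d sum_{v,w in B_n} k(a_v g, a_w h) cosf (w - v) x.
(Instead of the average over the finite subgroup with 2n+1 > 2(n-1) one may use the Haar integral over the torus:
UnitAddTorus.mFourier is orthonormal. Take what is easier. The only facts needed are the averages of characters:
average of mFourier u over the finite subgroup is 1 if all u_i are divisible by 2n+1 and 0 otherwise.)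
(a) For phi >= 0 and real c1, c2 and g, h in Q: c1^2 Lam^{g,g}(phi) + 2 c1 c2 (Lam^{g,h}(phi) + Lam^{h,g}(phi))/2 + c2^2 Lam^{h,h}(phi) >= 0:
pointwise in x: put for the points p = a_v g (v in B_n) the coefficient c1 cos(2 pi <v,x>), for p = a_v h the coefficient
c2 cos(2 pi <v,x>), and the same with sin; cos(w-v) = cos w cos v + sin w sin v; the sum is
sum_p,q k(p,q) (C_p C_q + S_p S_q) >= 0 by positive definiteness (points p may coincide: collect coefficients, or use the lemma for families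
indexed by a finite type: sum over i,j of c_i c_j f(p_i^-1 p_j) >= 0 for any finite family p_i).
In particular Lam^{g,g}(phi) >= 0.
(b) For |u_i| < n: Lam_n^{1,1}(cosf u) = prod_i (1 - |u_i|/n) f(a_u), because k(a_v, a_w) = f(a_{w-v}) and
cosf u * cosf (w-v) has average 1/2 for w - v = u, 1/2 for w - v = -u (1 if u = 0), f(a_{-u}) = f(a_u); frequencies are < 2n+1 in absolute value.
Similarly Lam_n^{s',s'}(cosf u) with s' = s^-1: k(a_v s', a_w s') = f(s a_{w-v} s^-1) = f(a_{M(w-v)}), so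
Lam_n^{s',s'}(cosf u) = prod_i (1-|u_i|/n) f(a_{M u}). And Lam_n(sin) = 0 for x -> sin(2 pi <u,x>), all the F_n^{g,g} of the above form being even in x.
Lam_n^{g,g}(1) = 1 (n >= 1), Lam_n^{1,s'}(1) = n^-d sum_{v} k(a_v, a_v s') = f(s') = f(s).
(c) All Lam_n^{g,h} are linear in phi and bounded: |Lam_n^{g,g}(phi)| <= norm phi (positivity and Lam(1) = 1),
|Lam_n^{g,h} + Lam_n^{h,g}| <= 2 norm phi by (a). Let U be a free ultrafilter on N and L(phi) = lim_U Lam_n^{1,1}(phi), L'(phi) = lim_U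
Lam_n^{s',s'}(phi), N(phi) = lim_U (Lam_n^{1,s'} + Lam_n^{s',1})(phi)/2 (bounded real sequences converge along U). L is linear, positive, L(1) = 1,
L(cosf u) = f(a_u). L'(cosf u) = f(a_{M u}) = L(cosf (M u)) = L(cosf u o dualMap M), both vanish on sines. The span of
the cosf u and the sines is dense in C(Tor d, R) (real parts of UnitAddTorus.span_mFourier_closure_eq_top) and both functionals are norm bounded, so
L'(phi) = L(phi o dualMap M) for all phi.
(d) For 0 <= phi: the symmetric bilinear form B((c1,c2),(d1,d2)) = c1 d1 L + (c1 d2 + c2 d1) N + c2 d2 L' (at phi) is positive semidefinite, and bounded by norm phi times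
the same form at phi = 1. L(phi) - L'(phi) = B((1,-1),(1,1)), Cauchy-Schwarz:
|L - L'|^2 <= B((1,-1),(1,-1)) B((1,1),(1,1)) <= (norm phi)^2 (2 - 2 f s)(2 + 2 f s) <= 8 (norm phi)^2 (1 - f s) ... (f s <= 1).
So |L phi - L' phi| <= 3 sqrt(1 - f s) norm phi for phi >= 0. For general phi apply this to phi + norm phi >= 0, of norm <= 2 norm phi; constants cancel.
-/
set_option autoImplicit false

namespace Pool.Agent.H13.DM

open MeasureTheory Filter Topology

/-- Haar measure on the torus -/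
noncomputable def fnMu (d : ℕ) : Measure (Tor d) :=
  Measure.pi (fun _ => (AddCircle.haarAddCircle : Measure UnitAddCircle))

instance fnMu_prob (d : ℕ) : IsProbabilityMeasure (fnMu d) := by
  unfold fnMu; infer_instance

theorem fn_int1 (m : ℤ) : ∫ t : UnitAddCircle, (fourier m t : ℂ) ∂AddCircle.haarAddCircle
    = if m = 0 then 1 else 0 := by
  split_ifs with h
  · subst h
    simp
  · exact integral_eq_zero_of_add_right_eq_neg (μ := AddCircle.haarAddCircle)
      (fourier_add_half_inv_index h Fact.out)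

theorem fn_intMF {d : ℕ} (u : Fin d → ℤ) :
    ∫ x, UnitAddTorus.mFourier u x ∂(fnMu d) = if u = 0 then (1 : ℂ) else 0 := by
  have h1 : ∫ x, UnitAddTorus.mFourier u x ∂(fnMu d) =
      ∏ i, ∫ t : UnitAddCircle, (fourier (u i) t : ℂ) ∂AddCircle.haarAddCircle :=
    MeasureTheory.integral_fintype_prod_eq_prod (fun i (t : UnitAddCircle) => (fourier (u i) t : ℂ))
  rw [h1]
  simp only [fn_int1]
  split_ifs with h
  · subst h; simp
  · obtain ⟨i, hi⟩ := Function.ne_iff.mp h
    exact Finset.prod_eq_zero (Finset.mem_univ i) (if_neg hi)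

/-- x maps to sin (2 pi <v, x>) on the torus -/
noncomputable def fnSin {d : ℕ} (v : Fin d → ℤ) : C(Tor d, ℝ) :=
  ⟨fun x => (UnitAddTorus.mFourier v x).im, by fun_prop⟩

theorem fn_cos_apply {d : ℕ} (v : Fin d → ℤ) (x : Tor d) :
    cosf v x = (UnitAddTorus.mFourier v x).re := rfl

theorem fn_sin_apply {d : ℕ} (v : Fin d → ℤ) (x : Tor d) :
    fnSin v x = (UnitAddTorus.mFourier v x).im := rfl

theorem fn_integrable {d : ℕ} {E : Type*} [NormedAddCommGroup E] (φ : Tor d → E)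
    (h : Continuous φ) : Integrable φ (fnMu d) := 
  h.integrable_of_hasCompactSupport (HasCompactSupport.of_compactSpace _)

theorem fn_int_cos {d : ℕ} (u : Fin d → ℤ) :
    ∫ x, cosf u x ∂(fnMu d) = if u = 0 then 1 else 0 := by
  have h := Complex.reCLM.integral_comp_comm
    (fn_integrable (fun x => UnitAddTorus.mFourier u x) (map_continuous _))
  rw [fn_intMF] at h
  change ∫ x, Complex.reCLM (UnitAddTorus.mFourier u x) ∂(fnMu d) = _
  rw [h]
  split_ifs <;> simp

theorem fn_int_sin {d : ℕ} (u : Fin d → ℤ) :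
    ∫ x, fnSin u x ∂(fnMu d) = 0 := by
  have h := Complex.imCLM.integral_comp_comm
    (fn_integrable (fun x => UnitAddTorus.mFourier u x) (map_continuous _))
  rw [fn_intMF] at h
  change ∫ x, Complex.imCLM (UnitAddTorus.mFourier u x) ∂(fnMu d) = _
  rw [h]
  split_ifs <;> simp

theorem fn_cos_mul {d : ℕ} (u t : Fin d → ℤ) (x : Tor d) :
    cosf u x * cosf t x = (cosf (u + t) x + cosf (u - t) x) / 2 := by
  rw [sub_eq_add_neg]
  simp only [fn_cos_apply, UnitAddTorus.mFourier_add, UnitAddTorus.mFourier_neg, Complex.mul_re,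
    Complex.conj_re, Complex.conj_im]
  ring

theorem fn_sin_mul {d : ℕ} (u t : Fin d → ℤ) (x : Tor d) :
    fnSin u x * cosf t x = (fnSin (u + t) x + fnSin (u - t) x) / 2 := by
  rw [sub_eq_add_neg]
  simp only [fn_cos_apply, fn_sin_apply, UnitAddTorus.mFourier_add, UnitAddTorus.mFourier_neg,
    Complex.mul_im, Complex.conj_re, Complex.conj_im]
  ring

theorem fn_cos_sub {d : ℕ} (u t : Fin d → ℤ) (x : Tor d) :
    cosf (u - t) x = cosf t x * cosf u x + fnSin t x * fnSin u x := by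
  rw [sub_eq_add_neg]
  simp only [fn_cos_apply, fn_sin_apply, UnitAddTorus.mFourier_add, UnitAddTorus.mFourier_neg,
    Complex.mul_re, Complex.conj_re, Complex.conj_im]
  ring

theorem fn_int_cos_mul {d : ℕ} (u t : Fin d → ℤ) :
    ∫ x, cosf u x * cosf t x ∂(fnMu d) =
      ((if t = -u then 1 else 0) + (if t = u then 1 else 0)) / 2 := by
  simp only [fn_cos_mul]
  rw [integral_div, integral_add (fn_integrable _ (map_continuous _))
    (fn_integrable _ (map_continuous _)), fn_int_cos, fn_int_cos]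
  congr 2
  · congr 1
    rw [eq_iff_iff, add_comm, add_eq_zero_iff_eq_neg]
  · congr 1
    rw [eq_iff_iff, sub_eq_zero, eq_comm]

theorem fn_int_sin_mul {d : ℕ} (u t : Fin d → ℤ) :
    ∫ x, fnSin u x * cosf t x ∂(fnMu d) = 0 := by
  simp only [fn_sin_mul]
  rw [integral_div, integral_add (fn_integrable _ (map_continuous _))
    (fn_integrable _ (map_continuous _)), fn_int_sin, fn_int_sin]
  simp


/-! ### positive definiteness -/

theorem fn_psd0 {Q : Type*} [Group Q] {f : Q → ℝ} (hf : PosDefFun f) {ι : Type*} (T : Finset ι)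
    (p : ι → Q) (c : ι → ℝ) :
    0 ≤ ∑ i ∈ T, ∑ j ∈ T, c i * c j * f ((p i)⁻¹ * p j) := by
  classical
  have h := hf.2.2 (T.image p) (fun g => ∑ i ∈ T with p i = g, c i)
  refine h.trans (le_of_eq ?_)
  have hmap : ∀ x ∈ T, p x ∈ T.image p := fun x hx => Finset.mem_image_of_mem p hx
  rw [← Finset.sum_fiberwise_of_maps_to hmap]
  refine Finset.sum_congr rfl fun g _ => ?_
  have h1 : ∀ i ∈ T.filter (fun i => p i = g), ∑ j ∈ T, c i * c j * f ((p i)⁻¹ * p j) =
      c i * ∑ h ∈ T.image p, (∑ j ∈ T with p j = h, c j) * f (g⁻¹ * h) := by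
    intro i hi
    rw [(Finset.mem_filter.mp hi).2, ← Finset.sum_fiberwise_of_maps_to hmap, Finset.mul_sum]
    refine Finset.sum_congr rfl fun h _ => ?_
    rw [Finset.sum_mul, Finset.mul_sum]
    refine Finset.sum_congr rfl fun j hj => ?_
    rw [(Finset.mem_filter.mp hj).2]
    ring
  rw [Finset.sum_congr rfl h1, ← Finset.sum_mul, Finset.mul_sum]
  refine Finset.sum_congr rfl fun h _ => ?_
  ring

theorem fn_psd1 {Q : Type*} [Group Q] {f : Q → ℝ} (hf : PosDefFun f) {d : ℕ} {ι : Type*}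
    (T : Finset ι) (p : ι → Q) (e : ι → Fin d → ℤ) (c : ι → ℝ) (x : Tor d) :
    0 ≤ ∑ i ∈ T, ∑ j ∈ T, c i * c j * f ((p i)⁻¹ * p j) * cosf (e j - e i) x := by
  have h1 := fn_psd0 hf T p (fun i => c i * cosf (e i) x)
  have h2 := fn_psd0 hf T p (fun i => c i * fnSin (e i) x)
  refine (add_nonneg h1 h2).trans (le_of_eq ?_)
  rw [← Finset.sum_add_distrib]
  refine Finset.sum_congr rfl fun i _ => ?_
  rw [← Finset.sum_add_distrib]
  refine Finset.sum_congr rfl fun j _ => ?_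
  rw [fn_cos_sub]
  ring

/-- the function u ↦ f (g⁻¹ a_u h) -/
def fnTh {Q : Type*} [Group Q] {d : ℕ} (a : Multiplicative (Fin d → ℤ) →* Q) (f : Q → ℝ)
    (g h : Q) (u : Fin d → ℤ) : ℝ := f (g⁻¹ * a (Multiplicative.ofAdd u) * h)

/-- the kernel -/
noncomputable def fnF {d : ℕ} (B : Finset (Fin d → ℤ)) (θ : (Fin d → ℤ) → ℝ) : C(Tor d, ℝ) :=
  (B.card : ℝ)⁻¹ • ∑ v ∈ B, ∑ w ∈ B, θ (w - v) • cosf (w - v)

theorem fnF_apply {d : ℕ} (B : Finset (Fin d → ℤ)) (θ : (Fin d → ℤ) → ℝ) (x : Tor d) :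
    fnF B θ x = (B.card : ℝ)⁻¹ * ∑ v ∈ B, ∑ w ∈ B, θ (w - v) * cosf (w - v) x := by
  simp [fnF]

theorem fn_psd2 {Q : Type*} [Group Q] {f : Q → ℝ} (hf : PosDefFun f) {d : ℕ}
    (a : Multiplicative (Fin d → ℤ) →* Q) (g h : Q) (B : Finset (Fin d → ℤ)) (c₁ c₂ : ℝ)
    (x : Tor d) :
    0 ≤ c₁ ^ 2 * fnF B (fnTh a f g g) x + c₁ * c₂ * (fnF B (fnTh a f g h) x +
      fnF B (fnTh a f h g) x) + c₂ ^ 2 * fnF B (fnTh a f h h) x := by
  have h1 := fn_psd1 hf (B ×ˢ (Finset.univ : Finset Bool))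
    (fun i => a (Multiplicative.ofAdd i.1) * (if i.2 then h else g)) (fun i => i.1)
    (fun i => if i.2 then c₂ else c₁) x
  have h2 := mul_nonneg (inv_nonneg.mpr (Nat.cast_nonneg (α := ℝ) B.card)) h1
  refine h2.trans (le_of_eq ?_)
  simp only [fnF_apply]
  have key : ∀ (k l : Q) (v w : Fin d → ℤ), f ((a (Multiplicative.ofAdd v) * k)⁻¹ *
      (a (Multiplicative.ofAdd w) * l)) = fnTh a f k l (w - v) := by
    intro k l v w
    unfold fnTh
    congr 1
    rw [sub_eq_add_neg, ofAdd_add, ofAdd_neg, map_mul, map_inv, mul_inv_rev]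
    have hc : a (Multiplicative.ofAdd w) * (a (Multiplicative.ofAdd v))⁻¹ =
        (a (Multiplicative.ofAdd v))⁻¹ * a (Multiplicative.ofAdd w) := by
      rw [← map_inv, ← map_mul, ← map_mul, mul_comm]
    rw [hc]
    group
  have e1 : ∀ (k l : Q) (c : ℝ), c * ((B.card : ℝ)⁻¹ *
      ∑ v ∈ B, ∑ w ∈ B, fnTh a f k l (w - v) * cosf (w - v) x) = (B.card : ℝ)⁻¹ *
      ∑ v ∈ B, ∑ w ∈ B, c * (fnTh a f k l (w - v) * cosf (w - v) x) := by
    intro k l c
    rw [mul_left_comm, Finset.mul_sum]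
    congr 1
    refine Finset.sum_congr rfl fun v _ => ?_
    rw [Finset.mul_sum]
  rw [mul_add (c₁ * c₂), e1, e1, e1, e1, ← mul_add, ← mul_add, ← mul_add]
  congr 1
  rw [Finset.sum_product, ← Finset.sum_add_distrib, ← Finset.sum_add_distrib,
    ← Finset.sum_add_distrib]
  refine Finset.sum_congr rfl fun v _ => ?_
  rw [Fintype.sum_bool, Finset.sum_product, Finset.sum_product, ← Finset.sum_add_distrib,
    ← Finset.sum_add_distrib, ← Finset.sum_add_distrib, ← Finset.sum_add_distrib]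
  refine Finset.sum_congr rfl fun w _ => ?_
  rw [Fintype.sum_bool, Fintype.sum_bool]
  simp only [key, if_true, Bool.false_eq_true, if_false]
  ring


/-! ### the approximate functionals -/

/-- the approximate functionals -/
noncomputable def fnL {d : ℕ} (B : Finset (Fin d → ℤ)) (θ : (Fin d → ℤ) → ℝ)
    (φ : C(Tor d, ℝ)) : ℝ := ∫ x, φ x * fnF B θ x ∂(fnMu d)

theorem fnL_int {d : ℕ} (B : Finset (Fin d → ℤ)) (θ : (Fin d → ℤ) → ℝ) (φ : C(Tor d, ℝ)) :
    Integrable (fun x => φ x * fnF B θ x) (fnMu d) :=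
  fn_integrable _ ((map_continuous φ).mul (map_continuous _))

theorem fnL_add {d : ℕ} (B : Finset (Fin d → ℤ)) (θ : (Fin d → ℤ) → ℝ) (φ ψ : C(Tor d, ℝ)) :
    fnL B θ (φ + ψ) = fnL B θ φ + fnL B θ ψ := by
  unfold fnL
  rw [← integral_add (fnL_int B θ φ) (fnL_int B θ ψ)]
  congr 1
  ext x
  rw [ContinuousMap.add_apply]
  ring

theorem fnL_smul {d : ℕ} (B : Finset (Fin d → ℤ)) (θ : (Fin d → ℤ) → ℝ) (c : ℝ)
    (φ : C(Tor d, ℝ)) :
    fnL B θ (c • φ) = c * fnL B θ φ := by
  unfold fnL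
  rw [← integral_const_mul]
  congr 1
  ext x
  rw [ContinuousMap.smul_apply, smul_eq_mul]
  ring

theorem fnL_sub {d : ℕ} (B : Finset (Fin d → ℤ)) (θ : (Fin d → ℤ) → ℝ) (φ ψ : C(Tor d, ℝ)) :
    fnL B θ (φ - ψ) = fnL B θ φ - fnL B θ ψ := by
  have h : φ - ψ = φ + (-1 : ℝ) • ψ := by simp [sub_eq_add_neg]
  rw [h, fnL_add, fnL_smul]
  ring

/-- the proportion of v in B with v + u in B -/
noncomputable def fnR {d : ℕ} (B : Finset (Fin d → ℤ)) (u : Fin d → ℤ) : ℝ :=
  (B.card : ℝ)⁻¹ * ((B.filter (fun v => v + u ∈ B)).card : ℝ)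

theorem fnR_sum {d : ℕ} (B : Finset (Fin d → ℤ)) (u : Fin d → ℤ) (θ : (Fin d → ℤ) → ℝ) :
    (B.card : ℝ)⁻¹ * ∑ v ∈ B, ∑ w ∈ B, θ (w - v) * (if w - v = u then 1 else 0) =
      θ u * fnR B u := by
  have h1 : ∀ v ∈ B, ∑ w ∈ B, θ (w - v) * (if w - v = u then (1 : ℝ) else 0) =
      if v + u ∈ B then θ u else 0 := by
    intro v _
    have h2 : ∀ w ∈ B, θ (w - v) * (if w - v = u then (1 : ℝ) else 0) =
        if w = v + u then θ u else 0 := by
      intro w _
      by_cases h : w = v + u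
      · subst h
        simp
      · have h' : ¬ (w - v = u) := fun hh => h (by rw [← hh]; abel)
        rw [if_neg h, if_neg h', mul_zero]
    rw [Finset.sum_congr rfl h2, Finset.sum_ite_eq']
  rw [Finset.sum_congr rfl h1, ← Finset.sum_filter, Finset.sum_const, nsmul_eq_mul]
  unfold fnR
  ring

theorem fnL_cos {d : ℕ} (B : Finset (Fin d → ℤ)) (θ : (Fin d → ℤ) → ℝ) (u : Fin d → ℤ) :
    fnL B θ (cosf u) = (θ (-u) * fnR B (-u) + θ u * fnR B u) / 2 := by
  rw [← fnR_sum, ← fnR_sum, ← mul_add, mul_div_assoc, ← Finset.sum_add_distrib, Finset.sum_div]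
  have h1 : ∀ x : Tor d, cosf u x * fnF B θ x =
      (B.card : ℝ)⁻¹ * ∑ v ∈ B, ∑ w ∈ B, θ (w - v) * (cosf u x * cosf (w - v) x) := by
    intro x
    rw [fnF_apply, mul_left_comm, Finset.mul_sum]
    congr 1
    refine Finset.sum_congr rfl fun v _ => ?_
    rw [Finset.mul_sum]
    refine Finset.sum_congr rfl fun w _ => ?_
    ring
  unfold fnL
  simp only [h1]
  rw [integral_const_mul, integral_finsetSum]
  · congr 1
    refine Finset.sum_congr rfl fun v _ => ?_
    rw [integral_finsetSum]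
    · rw [← Finset.sum_add_distrib, Finset.sum_div]
      refine Finset.sum_congr rfl fun w _ => ?_
      rw [integral_const_mul, fn_int_cos_mul]
      ring
    · intro w _
      exact fn_integrable _ (continuous_const.mul ((map_continuous _).mul (map_continuous _)))
  · intro v _
    refine fn_integrable _ (continuous_finsetSum _ fun w _ => ?_)
    exact (continuous_const.mul ((map_continuous _).mul (map_continuous _)))

theorem fnL_sin {d : ℕ} (B : Finset (Fin d → ℤ)) (θ : (Fin d → ℤ) → ℝ) (u : Fin d → ℤ) :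
    fnL B θ (fnSin u) = 0 := by
  have h1 : ∀ x : Tor d, fnSin u x * fnF B θ x =
      (B.card : ℝ)⁻¹ * ∑ v ∈ B, ∑ w ∈ B, θ (w - v) * (fnSin u x * cosf (w - v) x) := by
    intro x
    rw [fnF_apply, mul_left_comm, Finset.mul_sum]
    congr 1
    refine Finset.sum_congr rfl fun v _ => ?_
    rw [Finset.mul_sum]
    refine Finset.sum_congr rfl fun w _ => ?_
    ring
  unfold fnL
  simp only [h1]
  rw [integral_const_mul, integral_finsetSum]
  · rw [Finset.sum_eq_zero, mul_zero]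
    intro v _
    rw [integral_finsetSum]
    · refine Finset.sum_eq_zero fun w _ => ?_
      rw [integral_const_mul, fn_int_sin_mul, mul_zero]
    · intro w _
      exact fn_integrable _ (continuous_const.mul ((map_continuous _).mul (map_continuous _)))
  · intro v _
    refine fn_integrable _ (continuous_finsetSum _ fun w _ => ?_)
    exact (continuous_const.mul ((map_continuous _).mul (map_continuous _)))

theorem fnR_zero {d : ℕ} {B : Finset (Fin d → ℤ)} (hB : B.Nonempty) : fnR B 0 = 1 := by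
  unfold fnR
  have h : B.filter (fun v => v + 0 ∈ B) = B := by
    ext v; simp
  rw [h]
  exact inv_mul_cancel₀ (by exact_mod_cast hB.card_pos.ne')

theorem fn_cos_zero {d : ℕ} : cosf (0 : Fin d → ℤ) = 1 := by
  ext x
  rw [fn_cos_apply, UnitAddTorus.mFourier_zero]
  simp

theorem fnL_one {d : ℕ} {B : Finset (Fin d → ℤ)} (hB : B.Nonempty) (θ : (Fin d → ℤ) → ℝ) :
    fnL B θ 1 = θ 0 := by
  rw [← fn_cos_zero, fnL_cos, neg_zero, fnR_zero hB]
  ring

theorem fnL_psd {Q : Type*} [Group Q] {f : Q → ℝ} (hf : PosDefFun f) {d : ℕ}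
    (a : Multiplicative (Fin d → ℤ) →* Q) (g h : Q) (B : Finset (Fin d → ℤ)) (c₁ c₂ : ℝ)
    (φ : C(Tor d, ℝ)) (hφ : 0 ≤ φ) :
    0 ≤ c₁ ^ 2 * fnL B (fnTh a f g g) φ + c₁ * c₂ * (fnL B (fnTh a f g h) φ +
      fnL B (fnTh a f h g) φ) + c₂ ^ 2 * fnL B (fnTh a f h h) φ := by
  have h1 : 0 ≤ ∫ x, φ x * (c₁ ^ 2 * fnF B (fnTh a f g g) x + c₁ * c₂ * (fnF B (fnTh a f g h) x +
      fnF B (fnTh a f h g) x) + c₂ ^ 2 * fnF B (fnTh a f h h) x) ∂(fnMu d) :=
    integral_nonneg fun x => mul_nonneg (hφ x) (fn_psd2 hf a g h B c₁ c₂ x)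
  refine h1.trans (le_of_eq ?_)
  unfold fnL
  rw [← integral_add (fnL_int _ _ _) (fnL_int _ _ _), ← integral_const_mul, ← integral_const_mul,
    ← integral_const_mul, ← integral_add, ← integral_add]
  · congr 1
    ext x
    ring
  · exact ((fnL_int _ _ _).const_mul _).add (((fnL_int _ _ _).add (fnL_int _ _ _)).const_mul _)
  · exact (fnL_int _ _ _).const_mul _
  · exact (fnL_int _ _ _).const_mul _
  · exact ((fnL_int _ _ _).add (fnL_int _ _ _)).const_mul _

theorem fnTh_zero {Q : Type*} [Group Q] {d : ℕ} (a : Multiplicative (Fin d → ℤ) →* Q) (f : Q → ℝ)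
    (g h : Q) : fnTh a f g h 0 = f (g⁻¹ * h) := by
  unfold fnTh
  rw [ofAdd_zero, map_one, mul_one]

theorem fnL_pos {Q : Type*} [Group Q] {f : Q → ℝ} (hf : PosDefFun f) {d : ℕ}
    (a : Multiplicative (Fin d → ℤ) →* Q) (g : Q) (B : Finset (Fin d → ℤ))
    (φ : C(Tor d, ℝ)) (hφ : 0 ≤ φ) : 0 ≤ fnL B (fnTh a f g g) φ := by
  have h := fnL_psd hf a g g B 1 0 φ hφ
  simpa using h

theorem fnL_bdd {Q : Type*} [Group Q] {f : Q → ℝ} (hf : PosDefFun f) {d : ℕ}
    (a : Multiplicative (Fin d → ℤ) →* Q) (g : Q) {B : Finset (Fin d → ℤ)} (hB : B.Nonempty)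
    (φ : C(Tor d, ℝ)) : |fnL B (fnTh a f g g) φ| ≤ ‖φ‖ := by
  have h1 : fnL B (fnTh a f g g) 1 = 1 := by
    rw [fnL_one hB, fnTh_zero, inv_mul_cancel, hf.1]
  have h2 := fnL_pos hf a g B (‖φ‖ • (1 : C(Tor d, ℝ)) - φ) (fun x => by
    have := (abs_le.mp (φ.norm_coe_le_norm x)).2
    simpa using this)
  have h3 := fnL_pos hf a g B (‖φ‖ • (1 : C(Tor d, ℝ)) + φ) (fun x => by
    have := (abs_le.mp (φ.norm_coe_le_norm x)).1
    change (0 : ℝ) ≤ ‖φ‖ * 1 + φ x
    linarith)
  rw [fnL_sub, fnL_smul, h1] at h2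
  rw [fnL_add, fnL_smul, h1] at h3
  rw [abs_le]
  constructor <;> linarith

theorem fn_alg {A C N K t : ℝ} (h : ∀ c₁ c₂ : ℝ, 0 ≤ c₁ ^ 2 * A + c₁ * c₂ * N + c₂ ^ 2 * C)
    (h' : ∀ c₁ c₂ : ℝ, 0 ≤ c₁ ^ 2 * (K - A) + c₁ * c₂ * (2 * K * t - N) + c₂ ^ 2 * (K - C))
    (hK : 0 ≤ K) (ht : t ≤ 1) : |A - C| ≤ 3 * Real.sqrt (1 - t) * K := by
  have h1 : N ^ 2 ≤ 4 * A * C := by
    have hd := discrim_le_zero (a := A) (b := N) (c := C) (fun x => by
      have := h x 1
      linarith [this])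
    unfold discrim at hd
    linarith
  have h2 := h 1 (-1)
  have h3 := h 1 1
  have h4 := h' 1 (-1)
  have h5 := h' 1 1
  have h6 : (A + C - N) * (A + C + N) ≤ (K * (2 - 2 * t)) * (K * (2 + 2 * t)) := by
    apply mul_le_mul
    · linarith
    · linarith
    · linarith
    · exact mul_nonneg hK (by linarith)
  have h7 : (A - C) ^ 2 ≤ (3 * Real.sqrt (1 - t) * K) ^ 2 := by
    have h8 : Real.sqrt (1 - t) ^ 2 = 1 - t := Real.sq_sqrt (by linarith)
    have h9 : (3 * Real.sqrt (1 - t) * K) ^ 2 = 9 * (1 - t) * K ^ 2 := by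
      rw [mul_pow, mul_pow, h8]; norm_num
    rw [h9]
    have h10 : 0 ≤ K ^ 2 * (1 - t) := mul_nonneg (sq_nonneg _) (by linarith)
    nlinarith [h10, mul_nonneg h10 (sub_nonneg.mpr ht)]
  exact abs_le_of_sq_le_sq h7 (mul_nonneg (mul_nonneg (by norm_num) (Real.sqrt_nonneg _)) hK)

theorem fn_le_one {Q : Type*} [Group Q] {f : Q → ℝ} (hf : PosDefFun f) (g : Q) : f g ≤ 1 := by
  have h := fn_psd0 hf (Finset.univ : Finset Bool) (fun b => if b then g else 1)
    (fun b => if b then -1 else 1)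
  simp only [Fintype.sum_bool, if_true, Bool.false_eq_true, if_false, inv_one, one_mul, mul_one,
    inv_mul_cancel, hf.1, hf.2.1] at h
  linarith

theorem fnL_quasi0 {Q : Type*} [Group Q] {f : Q → ℝ} (hf : PosDefFun f) {d : ℕ}
    (a : Multiplicative (Fin d → ℤ) →* Q) (g h : Q) {B : Finset (Fin d → ℤ)} (hB : B.Nonempty)
    (φ : C(Tor d, ℝ)) (hφ : 0 ≤ φ) :
    |fnL B (fnTh a f g g) φ - fnL B (fnTh a f h h) φ| ≤
      3 * Real.sqrt (1 - f (g⁻¹ * h)) * ‖φ‖ := by
  refine fn_alg (N := fnL B (fnTh a f g h) φ + fnL B (fnTh a f h g) φ)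
    (fun c₁ c₂ => fnL_psd hf a g h B c₁ c₂ φ hφ) (fun c₁ c₂ => ?_) (norm_nonneg _)
    (fn_le_one hf _)
  have h1 := fnL_psd hf a g h B c₁ c₂ (‖φ‖ • (1 : C(Tor d, ℝ)) - φ) (fun x => by
    have := (abs_le.mp (φ.norm_coe_le_norm x)).2
    simpa using this)
  simp only [fnL_sub, fnL_smul, fnL_one hB, fnTh_zero, inv_mul_cancel, hf.1] at h1
  have h2 : f (h⁻¹ * g) = f (g⁻¹ * h) := by
    rw [← hf.2.1 (h⁻¹ * g), mul_inv_rev, inv_inv]
  rw [h2] at h1
  refine h1.trans (le_of_eq ?_)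
  ring

theorem fnL_quasi {Q : Type*} [Group Q] {f : Q → ℝ} (hf : PosDefFun f) {d : ℕ}
    (a : Multiplicative (Fin d → ℤ) →* Q) (g h : Q) {B : Finset (Fin d → ℤ)} (hB : B.Nonempty)
    (φ : C(Tor d, ℝ)) :
    |fnL B (fnTh a f g g) φ - fnL B (fnTh a f h h) φ| ≤
      6 * Real.sqrt (1 - f (g⁻¹ * h)) * ‖φ‖ := by
  have h1 := fnL_quasi0 hf a g h hB (‖φ‖ • (1 : C(Tor d, ℝ)) + φ) (fun x => by
    have := (abs_le.mp (φ.norm_coe_le_norm x)).1
    change (0 : ℝ) ≤ ‖φ‖ * 1 + φ x
    linarith)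
  simp only [fnL_add, fnL_smul, fnL_one hB, fnTh_zero, inv_mul_cancel, hf.1] at h1
  have h2 : ‖(‖φ‖ • (1 : C(Tor d, ℝ)) + φ)‖ ≤ 2 * ‖φ‖ := by
    refine (norm_add_le _ _).trans ?_
    rw [norm_smul, norm_norm]
    have : ‖(1 : C(Tor d, ℝ))‖ ≤ 1 := by
      rw [ContinuousMap.norm_le _ zero_le_one]
      intro x
      simp
    nlinarith [norm_nonneg φ]
  have h3 : fnL B (fnTh a f g g) φ - fnL B (fnTh a f h h) φ =
      ‖φ‖ * 1 + fnL B (fnTh a f g g) φ - (‖φ‖ * 1 + fnL B (fnTh a f h h) φ) := by ring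
  rw [h3]
  refine h1.trans ?_
  have h4 : 0 ≤ 3 * Real.sqrt (1 - f (g⁻¹ * h)) :=
    mul_nonneg (by norm_num) (Real.sqrt_nonneg _)
  calc _ ≤ 3 * Real.sqrt (1 - f (g⁻¹ * h)) * (2 * ‖φ‖) := mul_le_mul_of_nonneg_left h2 h4
    _ = _ := by ring


/-! ### boxes -/

/-- the box -/
noncomputable def fnB (d n : ℕ) : Finset (Fin d → ℤ) :=
  Fintype.piFinset (fun _ => Finset.Ico (0 : ℤ) ((n : ℤ) + 1))

theorem fnB_nonempty (d n : ℕ) : (fnB d n).Nonempty := by
  refine ⟨0, ?_⟩
  rw [fnB, Fintype.mem_piFinset]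
  intro i
  rw [Finset.mem_Ico]
  constructor
  · exact le_refl _
  · change (0 : ℤ) < (n : ℤ) + 1
    positivity

theorem fn_ratio (m : ℤ) : Tendsto (fun n : ℕ => ((n : ℝ) + 1)⁻¹ *
    (((Finset.Ico (0 : ℤ) ((n : ℤ) + 1)).filter
      (fun t => t + m ∈ Finset.Ico (0 : ℤ) ((n : ℤ) + 1))).card : ℝ)) atTop (𝓝 1) := by
  have h0 : Tendsto (fun n : ℕ => 1 - |(m : ℝ)| * ((n : ℝ) + 1)⁻¹) atTop (𝓝 1) := by
    have h1 : Tendsto (fun n : ℕ => ((n : ℝ) + 1)⁻¹) atTop (𝓝 0) :=
      tendsto_inv_atTop_zero.comp (tendsto_atTop_add_const_right _ _ tendsto_natCast_atTop_atTop)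
    have h2 := (h1.const_mul |(m : ℝ)|).const_sub 1
    simpa using h2
  refine h0.congr' ?_
  filter_upwards [eventually_ge_atTop m.natAbs] with n hn
  have hn' : |m| ≤ (n : ℤ) := by
    rw [Int.abs_eq_natAbs]; exact_mod_cast hn
  have h1 : (Finset.Ico (0 : ℤ) ((n : ℤ) + 1)).filter
      (fun t => t + m ∈ Finset.Ico (0 : ℤ) ((n : ℤ) + 1)) =
      Finset.Ico (max 0 (-m)) (min ((n : ℤ) + 1) ((n : ℤ) + 1 - m)) := by
    ext t
    simp only [Finset.mem_filter, Finset.mem_Ico, max_le_iff, lt_min_iff]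
    constructor
    · rintro ⟨⟨h1, h2⟩, h3, h4⟩
      exact ⟨⟨h1, by linarith⟩, h2, by linarith⟩
    · rintro ⟨⟨h1, h2⟩, h3, h4⟩
      exact ⟨⟨h1, h3⟩, by linarith, by linarith⟩
  have h2 : min ((n : ℤ) + 1) ((n : ℤ) + 1 - m) - max 0 (-m) = (n : ℤ) + 1 - |m| := by
    rcases le_total 0 m with h | h
    · rw [min_eq_right (by linarith), max_eq_left (by linarith), abs_of_nonneg h]; ring
    · rw [min_eq_left (by linarith), max_eq_right (by linarith), abs_of_nonpos h]
  have h3 : ((Finset.Ico (max 0 (-m)) (min ((n : ℤ) + 1) ((n : ℤ) + 1 - m))).card : ℝ) =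
      (n : ℝ) + 1 - |(m : ℝ)| := by
    rw [Int.card_Ico, h2]
    have h4 : (((n : ℤ) + 1 - |m|).toNat : ℤ) = (n : ℤ) + 1 - |m| :=
      Int.toNat_of_nonneg (by linarith)
    have h5 : ((((n : ℤ) + 1 - |m|).toNat : ℤ) : ℝ) = (((n : ℤ) + 1 - |m| : ℤ) : ℝ) := by
      rw [h4]
    push_cast at h5
    exact_mod_cast h5
  rw [h1, h3]
  have h6 : (n : ℝ) + 1 ≠ 0 := by positivity
  field_simp

theorem fnR_tendsto {d : ℕ} (u : Fin d → ℤ) :
    Tendsto (fun n : ℕ => fnR (fnB d n) u) atTop (𝓝 1) := by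
  have h1 : ∀ n : ℕ, fnR (fnB d n) u = ∏ i, (((n : ℝ) + 1)⁻¹ *
      (((Finset.Ico (0 : ℤ) ((n : ℤ) + 1)).filter
      (fun t => t + u i ∈ Finset.Ico (0 : ℤ) ((n : ℤ) + 1))).card : ℝ)) := by
    intro n
    unfold fnR
    rw [Finset.prod_mul_distrib]
    congr 1
    · rw [fnB, Fintype.card_piFinset]
      simp only [Int.card_Ico, Finset.prod_const, Finset.card_univ, Fintype.card_fin]
      have h : ((n : ℤ) + 1 - 0).toNat = n + 1 := by omega
      rw [h, inv_pow]
      push_cast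
      rfl
    · have h2 : (fnB d n).filter (fun v => v + u ∈ fnB d n) =
          Fintype.piFinset (fun i => (Finset.Ico (0 : ℤ) ((n : ℤ) + 1)).filter
            (fun t => t + u i ∈ Finset.Ico (0 : ℤ) ((n : ℤ) + 1))) := by
        ext v
        simp only [Finset.mem_filter, fnB, Fintype.mem_piFinset, Pi.add_apply]
        exact ⟨fun h i => ⟨h.1 i, h.2 i⟩, fun h => ⟨fun i => (h i).1, fun i => (h i).2⟩⟩
      rw [h2, Fintype.card_piFinset]
      push_cast
      rfl
  simp only [h1]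
  have h2 := tendsto_finsetProd (Finset.univ : Finset (Fin d)) (fun i _ => fn_ratio (u i))
  simpa using h2

theorem fnL_tendsto_cos {d : ℕ} (θ : (Fin d → ℤ) → ℝ) (u : Fin d → ℤ) :
    Tendsto (fun n : ℕ => fnL (fnB d n) θ (cosf u)) atTop (𝓝 ((θ (-u) + θ u) / 2)) := by
  simp only [fnL_cos]
  have h := (((fnR_tendsto (-u)).const_mul (θ (-u))).add
    ((fnR_tendsto u).const_mul (θ u))).div_const 2
  simpa using h

/-! ### density -/

theorem fn_dense {d : ℕ} (S : Submodule ℝ C(Tor d, ℝ)) (hS : IsClosed (S : Set C(Tor d, ℝ)))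
    (hc : ∀ v, cosf v ∈ S) (hs : ∀ v, fnSin v ∈ S) (φ : C(Tor d, ℝ)) : φ ∈ S := by
  let re : C(Tor d, ℂ) → C(Tor d, ℝ) := fun ψ => ⟨fun x => (ψ x).re, by fun_prop⟩
  let im : C(Tor d, ℂ) → C(Tor d, ℝ) := fun ψ => ⟨fun x => (ψ x).im, by fun_prop⟩
  have hre : Continuous re :=
    ContinuousMap.continuous_postcomp (⟨Complex.re, Complex.continuous_re⟩ : C(ℂ, ℝ))
  have him : Continuous im :=
    ContinuousMap.continuous_postcomp (⟨Complex.im, Complex.continuous_im⟩ : C(ℂ, ℝ))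
  let T : Submodule ℂ C(Tor d, ℂ) :=
    { carrier := {ψ | re ψ ∈ S ∧ im ψ ∈ S}
      add_mem' := by
        rintro ψ χ ⟨h1, h2⟩ ⟨h3, h4⟩
        refine ⟨?_, ?_⟩
        · have : re (ψ + χ) = re ψ + re χ := by ext x; simp [re]
          rw [this]; exact S.add_mem h1 h3
        · have : im (ψ + χ) = im ψ + im χ := by ext x; simp [im]
          rw [this]; exact S.add_mem h2 h4
      zero_mem' := by
        refine ⟨?_, ?_⟩
        · have : re 0 = 0 := by ext x; simp [re]
          rw [this]; exact S.zero_mem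
        · have : im 0 = 0 := by ext x; simp [im]
          rw [this]; exact S.zero_mem
      smul_mem' := by
        rintro c ψ ⟨h1, h2⟩
        refine ⟨?_, ?_⟩
        · have : re (c • ψ) = c.re • re ψ - c.im • im ψ := by ext x; simp [re, im]
          rw [this]; exact S.sub_mem (S.smul_mem _ h1) (S.smul_mem _ h2)
        · have : im (c • ψ) = c.re • im ψ + c.im • re ψ := by ext x; simp [re, im]
          rw [this]; exact S.add_mem (S.smul_mem _ h2) (S.smul_mem _ h1) }
  have hT : IsClosed (T : Set C(Tor d, ℂ)) := (hS.preimage hre).inter (hS.preimage him)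
  have h1 : Submodule.span ℂ (Set.range (UnitAddTorus.mFourier (d := Fin d))) ≤ T := by
    rw [Submodule.span_le]
    rintro _ ⟨v, rfl⟩
    exact ⟨hc v, hs v⟩
  have h2 := Submodule.topologicalClosure_minimal _ h1 hT
  rw [UnitAddTorus.span_mFourier_closure_eq_top] at h2
  have h3 := h2 (Submodule.mem_top (x := (⟨fun x => ((φ x : ℝ) : ℂ), by fun_prop⟩ : C(Tor d, ℂ))))
  have h4 : re (⟨fun x => ((φ x : ℝ) : ℂ), by fun_prop⟩ : C(Tor d, ℂ)) = φ := by
    ext x; simp [re]
  rw [← h4]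
  exact h3.1

theorem exists_functional {Q : Type*} [Group Q] {d : ℕ}
    (a : Multiplicative (Fin d → ℤ) →* Q) (f : Q → ℝ) (hf : PosDefFun f) :
    ∃ L : C(Tor d, ℝ) →ₗ[ℝ] ℝ, (∀ φ, 0 ≤ φ → 0 ≤ L φ) ∧ L 1 = 1 ∧
      (∀ v, L (cosf v) = f (a (Multiplicative.ofAdd v))) ∧
      ∀ (s : Q) (M : Matrix (Fin d) (Fin d) ℤ),
        (∀ v : Fin d → ℤ, s * a (Multiplicative.ofAdd v) * s⁻¹
          = a (Multiplicative.ofAdd (M.mulVec v))) →
        ∀ φ : C(Tor d, ℝ), |L (φ.comp (dualMap M)) - L φ| ≤ 6 * Real.sqrt (1 - f s) * ‖φ‖ := by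
  classical
  let U : Ultrafilter ℕ := hyperfilter ℕ
  have hU : (U : Filter ℕ) ≤ atTop := Nat.hyperfilter_le_atTop
  have hlim : ∀ φ : C(Tor d, ℝ), ∃ l : ℝ,
      Tendsto (fun n => fnL (fnB d n) (fnTh a f 1 1) φ) U (𝓝 l) := by
    intro φ
    have h1 := (isCompact_Icc (a := -‖φ‖) (b := ‖φ‖)).ultrafilter_le_nhds
      (U.map (fun n => fnL (fnB d n) (fnTh a f 1 1) φ)) (by
        rw [le_principal_iff, Ultrafilter.mem_coe, Ultrafilter.mem_map]
        refine Filter.univ_mem' fun n => ?_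
        exact abs_le.mp (fnL_bdd hf a 1 (fnB_nonempty d n) φ))
    obtain ⟨l, _, hl⟩ := h1
    exact ⟨l, hl⟩
  choose L0 hL0 using hlim
  let L : C(Tor d, ℝ) →ₗ[ℝ] ℝ :=
    { toFun := L0
      map_add' := fun φ ψ => by
        have h := (hL0 φ).add (hL0 ψ)
        refine tendsto_nhds_unique (hL0 (φ + ψ)) ?_
        simpa only [fnL_add] using h
      map_smul' := fun c φ => by
        have h := (hL0 φ).const_mul c
        refine tendsto_nhds_unique (hL0 (c • φ)) ?_
        simp only [fnL_smul]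
        exact h }
  have hL : ∀ φ, Tendsto (fun n => fnL (fnB d n) (fnTh a f 1 1) φ) U (𝓝 (L φ)) := hL0
  have hLb : ∀ φ, |L φ| ≤ ‖φ‖ := fun φ =>
    le_of_tendsto' (hL φ).abs (fun n => fnL_bdd hf a 1 (fnB_nonempty d n) φ)
  have hLc : ∀ v, L (cosf v) = f (a (Multiplicative.ofAdd v)) := by
    intro v
    have h1 := (fnL_tendsto_cos (fnTh a f 1 1) v).mono_left hU
    have h2 := tendsto_nhds_unique (hL (cosf v)) h1
    have h3 : fnTh a f 1 1 v = f (a (Multiplicative.ofAdd v)) := by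
      unfold fnTh; simp
    have h4 : fnTh a f 1 1 (-v) = f (a (Multiplicative.ofAdd v)) := by
      unfold fnTh
      rw [ofAdd_neg, map_inv, inv_one, one_mul, mul_one, hf.2.1]
    rw [h2, h3, h4]; ring
  have hLs : ∀ v, L (fnSin v) = 0 := by
    intro v
    refine tendsto_nhds_unique (hL (fnSin v)) ?_
    simp only [fnL_sin]
    exact tendsto_const_nhds
  refine ⟨L, fun φ hφ => ge_of_tendsto' (hL φ) (fun n => fnL_pos hf a 1 _ φ hφ), ?_, hLc, ?_⟩
  · refine tendsto_nhds_unique (hL 1) ?_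
    simp only [fnL_one (fnB_nonempty d _), fnTh_zero, inv_one, mul_one, hf.1]
    exact tendsto_const_nhds
  · intro s M hM φ
    have hT : ∀ ψ : C(Tor d, ℝ), Tendsto (fun n => fnL (fnB d n) (fnTh a f s⁻¹ s⁻¹) ψ) U
        (𝓝 (L (ψ.comp (dualMap M)))) := by
      let S : Submodule ℝ C(Tor d, ℝ) :=
        { carrier := {ψ | Tendsto (fun n => fnL (fnB d n) (fnTh a f s⁻¹ s⁻¹) ψ) U
            (𝓝 (L (ψ.comp (dualMap M))))}
          add_mem' := by
            intro ψ χ h1 h2
            have h3 := Tendsto.add h1 h2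
            have h4 : (ψ + χ).comp (dualMap M) = ψ.comp (dualMap M) + χ.comp (dualMap M) := rfl
            change Tendsto (fun n => fnL (fnB d n) (fnTh a f s⁻¹ s⁻¹) (ψ + χ)) U
              (𝓝 (L ((ψ + χ).comp (dualMap M))))
            rw [h4, map_add]
            simpa only [fnL_add] using h3
          zero_mem' := by
            change Tendsto (fun n => fnL (fnB d n) (fnTh a f s⁻¹ s⁻¹) 0) U
              (𝓝 (L ((0 : C(Tor d, ℝ)).comp (dualMap M))))
            have h4 : (0 : C(Tor d, ℝ)).comp (dualMap M) = 0 := rfl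
            have h5 : ∀ n, fnL (fnB d n) (fnTh a f s⁻¹ s⁻¹) 0 = 0 := fun n => by
              have := fnL_smul (fnB d n) (fnTh a f s⁻¹ s⁻¹) 0 0
              simpa using this
            rw [h4, map_zero]
            simp only [h5]
            exact tendsto_const_nhds
          smul_mem' := by
            intro c ψ h1
            have h3 := Tendsto.const_mul c h1
            have h4 : (c • ψ).comp (dualMap M) = c • ψ.comp (dualMap M) := rfl
            change Tendsto (fun n => fnL (fnB d n) (fnTh a f s⁻¹ s⁻¹) (c • ψ)) U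
              (𝓝 (L ((c • ψ).comp (dualMap M))))
            rw [h4, map_smul]
            simp only [fnL_smul]
            exact h3 }
      have hSc : IsClosed (S : Set C(Tor d, ℝ)) := by
        refine isClosed_of_closure_subset fun ψ hψ => ?_
        change Tendsto (fun n => fnL (fnB d n) (fnTh a f s⁻¹ s⁻¹) ψ) U
          (𝓝 (L (ψ.comp (dualMap M))))
        rw [Metric.tendsto_nhds]
        intro ε hε
        obtain ⟨χ, hχ, hd⟩ := Metric.mem_closure_iff.mp hψ (ε / 3) (by linarith)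
        have h1 : Tendsto (fun n => fnL (fnB d n) (fnTh a f s⁻¹ s⁻¹) χ) U
          (𝓝 (L (χ.comp (dualMap M)))) := hχ
        rw [Metric.tendsto_nhds] at h1
        filter_upwards [h1 (ε / 3) (by linarith)] with n hn
        rw [Real.dist_eq] at hn ⊢
        rw [dist_eq_norm] at hd
        have h2 := fnL_bdd hf a s⁻¹ (fnB_nonempty d n) (ψ - χ)
        rw [fnL_sub] at h2
        have h3 := hLb ((χ - ψ).comp (dualMap M))
        have h4 : (χ - ψ).comp (dualMap M) = χ.comp (dualMap M) - ψ.comp (dualMap M) := rfl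
        have h5 : ‖(χ - ψ).comp (dualMap M)‖ ≤ ‖ψ - χ‖ := by
          rw [norm_sub_rev ψ χ, ContinuousMap.norm_le _ (norm_nonneg _)]
          intro x
          exact (χ - ψ).norm_coe_le_norm (dualMap M x)
        have h6 := h3.trans h5
        rw [h4, map_sub] at h6
        have e1 := abs_lt.mp hn
        have e2 := abs_le.mp h2
        have e3 := abs_le.mp h6
        rw [abs_lt]
        constructor <;> linarith [e1.1, e1.2, e2.1, e2.2, e3.1, e3.2]
      have hcos : ∀ v, (cosf v : C(Tor d, ℝ)).comp (dualMap M) = cosf (M.mulVec v) := by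
        intro v
        ext x
        change (UnitAddTorus.mFourier v (dualMap M x)).re = _
        rw [mFourier_dualMap]; rfl
      have hsin : ∀ v, (fnSin v : C(Tor d, ℝ)).comp (dualMap M) = fnSin (M.mulVec v) := by
        intro v
        ext x
        change (UnitAddTorus.mFourier v (dualMap M x)).im = _
        rw [mFourier_dualMap]; rfl
      refine fn_dense S hSc (fun v => ?_) (fun v => ?_)
      · change Tendsto (fun n => fnL (fnB d n) (fnTh a f s⁻¹ s⁻¹) (cosf v)) U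
          (𝓝 (L ((cosf v).comp (dualMap M))))
        rw [hcos, hLc]
        have h1 := (fnL_tendsto_cos (fnTh a f s⁻¹ s⁻¹) v).mono_left hU
        have h3 : fnTh a f s⁻¹ s⁻¹ v = f (a (Multiplicative.ofAdd (M.mulVec v))) := by
          unfold fnTh; rw [inv_inv, hM]
        have h4 : fnTh a f s⁻¹ s⁻¹ (-v) = f (a (Multiplicative.ofAdd (M.mulVec v))) := by
          unfold fnTh
          rw [inv_inv, hM, Matrix.mulVec_neg, ofAdd_neg, map_inv, hf.2.1]
        rw [h3, h4] at h1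
        have h5 : (f (a (Multiplicative.ofAdd (M.mulVec v))) +
            f (a (Multiplicative.ofAdd (M.mulVec v)))) / 2 =
            f (a (Multiplicative.ofAdd (M.mulVec v))) := by ring
        rwa [h5] at h1
      · change Tendsto (fun n => fnL (fnB d n) (fnTh a f s⁻¹ s⁻¹) (fnSin v)) U
          (𝓝 (L ((fnSin v).comp (dualMap M))))
        rw [hsin, hLs]
        simp only [fnL_sin]
        exact tendsto_const_nhds
    refine le_of_tendsto' ((hT φ).sub (hL φ)).abs (fun n => ?_)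
    rw [abs_sub_comm]
    have h1 := fnL_quasi hf a 1 s⁻¹ (fnB_nonempty d n) φ
    rw [inv_one, one_mul, hf.2.1] at h1
    exact h1

end Pool.Agent.H13.DM
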