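import Mathlib
import Pool.Agent.H13.DM.RelT.Defs

/-!
MP_9d29f5_al, project DM, block C, file NoAtom (job DM-ATOM).
Prove the theorems in place (helper lemmas welcome).

PAPER PROOFS.
(1) no_atom (Wiener): for n >= 1 let B_n = [0,n)^d and phi_n = n^(-2d) sum_{v,w in B_n} cosf (v - w). As a function
phi_n(x) = |n^-d sum_v exp(2 pi i <v,x>)|^2 >= 0, phi_n(0) = 1. L phi_n = n^(-2d) sum_{v,w} F(v-w) -> 0 as n -> infinity: given
eta > 0 the set E = {u : |F u| > eta} is finite and #{(v,w) : v - w in E} <= #E n^d, so |L phi_n| <= eta + #E n^-d (here d >= 1).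
Choose n with L phi_n < eps/4 and chi = min 1 (4 phi_n) (inf of continuous maps, chi <= 4 phi_n so L chi <= 4 L phi_n < eps);
chi = 1 where phi_n >= 1/4, a neighbourhood of 0.
-/
set_option autoImplicit false

namespace Pool.Agent.H13.DM

open Filter Topology

theorem NoAtom_cosf_sub {d : ℕ} (v w : Fin d → ℤ) (x : Tor d) :
    cosf (v - w) x = (UnitAddTorus.mFourier v x *
      (starRingEnd ℂ) (UnitAddTorus.mFourier w x)).re := by
  change (UnitAddTorus.mFourier (v - w) x).re = _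
  rw [sub_eq_add_neg, UnitAddTorus.mFourier_add, UnitAddTorus.mFourier_neg]

/-- `n^(-2d) * sum of cosf (v - w)` over a finite set `B` of vectors (with `k = n^(-2d)`) -/
noncomputable def NoAtom_phi {d : ℕ} (B : Finset (Fin d → ℤ)) (k : ℝ) : C(Tor d, ℝ) :=
  k • ∑ v ∈ B, ∑ w ∈ B, cosf (v - w)

theorem NoAtom_phi_apply {d : ℕ} (B : Finset (Fin d → ℤ)) (k : ℝ) (x : Tor d) :
    NoAtom_phi B k x = k * Complex.normSq (∑ v ∈ B, UnitAddTorus.mFourier v x) := by
  unfold NoAtom_phi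
  rw [ContinuousMap.smul_apply, smul_eq_mul, ContinuousMap.sum_apply]
  congr 1
  have h1 : ∀ v, (∑ w ∈ B, (cosf (v - w) : C(Tor d, ℝ))) x = ∑ w ∈ B, (UnitAddTorus.mFourier v x *
      (starRingEnd ℂ) (UnitAddTorus.mFourier w x)).re := by
    intro v
    rw [ContinuousMap.sum_apply]
    exact Finset.sum_congr rfl fun w _ => NoAtom_cosf_sub v w x
  simp only [h1]
  simp only [← Complex.re_sum]
  rw [← Finset.sum_mul_sum, ← map_sum, Complex.mul_conj, Complex.ofReal_re]

theorem NoAtom_zero {d : ℕ} (v : Fin d → ℤ) : UnitAddTorus.mFourier v (0 : Tor d) = 1 := by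
  change ∏ i, fourier (v i) ((0 : Tor d) i) = 1
  refine Finset.prod_eq_one fun i _ => ?_
  exact fourier_eval_zero _

theorem NoAtom_phi_zero {d : ℕ} (B : Finset (Fin d → ℤ)) (k : ℝ) :
    NoAtom_phi B k 0 = k * (B.card : ℝ) ^ 2 := by
  rw [NoAtom_phi_apply]
  simp only [NoAtom_zero]
  simp [Complex.normSq_apply, sq]

theorem NoAtom_card {d : ℕ} (B E : Finset (Fin d → ℤ)) (v : Fin d → ℤ) :
    (B.filter fun w => v - w ∈ E).card ≤ E.card := by
  refine Finset.card_le_card_of_injOn (fun w => v - w) ?_ ?_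
  · intro w hw
    exact (Finset.mem_filter.1 hw).2
  · intro w _ w' _ h
    exact sub_right_injective h

theorem NoAtom_bound {d : ℕ} (L : C(Tor d, ℝ) →ₗ[ℝ] ℝ)
    (F : (Fin d → ℤ) → ℝ) (hF : ∀ v, L (cosf v) = F v) (hF1 : ∀ v, |F v| ≤ 1)
    (η : ℝ) (hη : 0 ≤ η) (E : Finset (Fin d → ℤ)) (hE : ∀ v, v ∉ E → |F v| ≤ η)
    (B : Finset (Fin d → ℤ)) (k : ℝ) (hk : 0 ≤ k) :
    L (NoAtom_phi B k) ≤ k * (B.card * (η * B.card + E.card)) := by
  unfold NoAtom_phi
  rw [map_smul, smul_eq_mul]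
  refine mul_le_mul_of_nonneg_left ?_ hk
  rw [map_sum]
  have h1 : ∀ v ∈ B, L (∑ w ∈ B, cosf (v - w)) ≤ η * B.card + E.card := by
    intro v _
    rw [map_sum]
    calc ∑ w ∈ B, L (cosf (v - w)) ≤ ∑ w ∈ B, (η + if v - w ∈ E then 1 else 0) := by
          refine Finset.sum_le_sum fun w _ => ?_
          rw [hF]
          split_ifs with h
          · linarith [le_abs_self (F (v - w)), hF1 (v - w)]
          · linarith [le_abs_self (F (v - w)), hE _ h]
      _ = η * B.card + ((B.filter fun w => v - w ∈ E).card : ℝ) := by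
          rw [Finset.sum_add_distrib, Finset.sum_const, nsmul_eq_mul, mul_comm, Finset.sum_boole]
      _ ≤ η * B.card + E.card := by
          have := NoAtom_card B E v
          have : ((B.filter fun w => v - w ∈ E).card : ℝ) ≤ E.card := by exact_mod_cast this
          linarith
  calc ∑ v ∈ B, L (∑ w ∈ B, cosf (v - w)) ≤ ∑ v ∈ B, (η * B.card + E.card) :=
        Finset.sum_le_sum h1
    _ = B.card * (η * B.card + E.card) := by rw [Finset.sum_const, nsmul_eq_mul]

theorem no_atom {d : ℕ} (hd : 0 < d) (L : C(Tor d, ℝ) →ₗ[ℝ] ℝ) (hpos : ∀ φ, 0 ≤ φ → 0 ≤ L φ)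
    (F : (Fin d → ℤ) → ℝ) (hF : ∀ v, L (cosf v) = F v)
    (hF1 : ∀ v, |F v| ≤ 1) (h0 : Tendsto F cofinite (𝓝 0)) (ε : ℝ) (hε : 0 < ε) :
    ∃ χ : C(Tor d, ℝ), 0 ≤ χ ∧ χ ≤ 1 ∧ (∀ᶠ x in 𝓝 (0 : Tor d), χ x = 1) ∧ L χ < ε := by
  classical
  have hη : (0 : ℝ) < ε / 16 := by positivity
  have hfin : {v | ¬ |F v| ≤ ε / 16}.Finite := by
    have h1 : ∀ᶠ v in cofinite, |F v| < ε / 16 := by
      have := h0.eventually (Metric.ball_mem_nhds (0 : ℝ) hη)
      refine this.mono fun v hv => ?_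
      simpa [Real.dist_eq] using hv
    rw [Filter.eventually_cofinite] at h1
    exact h1.subset fun v hv h => hv h.le
  set E : Finset (Fin d → ℤ) := hfin.toFinset with hEdef
  have hE : ∀ v, v ∉ E → |F v| ≤ ε / 16 := by
    intro v hv
    by_contra hcon
    exact hv ((Set.Finite.mem_toFinset hfin).2 hcon)
  -- infinitely many vectors
  have : Nonempty (Fin d) := ⟨⟨0, hd⟩⟩
  have : Infinite (Fin d → ℤ) := inferInstance
  obtain ⟨n, hn⟩ := exists_nat_gt ((E.card : ℝ) * (16 / ε))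
  obtain ⟨B, hB⟩ := Infinite.exists_subset_card_eq (Fin d → ℤ) (n + 1)
  have hBpos : (0 : ℝ) < B.card := by rw [hB]; positivity
  set k : ℝ := ((B.card : ℝ) ^ 2)⁻¹ with hk
  have hkpos : 0 < k := by positivity
  set φ := NoAtom_phi B k with hφ
  have hφ0 : φ 0 = 1 := by
    rw [hφ, NoAtom_phi_zero, hk]
    field_simp
  have hφnn : 0 ≤ φ := by
    intro x
    rw [hφ]
    change 0 ≤ NoAtom_phi B k x
    rw [NoAtom_phi_apply]
    exact mul_nonneg hkpos.le (Complex.normSq_nonneg _)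
  have hLφ : L φ < ε / 4 := by
    have h1 := NoAtom_bound L F hF hF1 (ε / 16) hη.le E hE B k hkpos.le
    have h2 : k * (B.card * (ε / 16 * B.card + E.card)) = ε / 16 + E.card / B.card := by
      rw [hk]
      field_simp
    have h3 : (E.card : ℝ) / B.card ≤ ε / 16 := by
      rw [div_le_iff₀ hBpos]
      have h4 : (n : ℝ) ≤ B.card := by rw [hB]; push_cast; linarith
      have h5 : (E.card : ℝ) = (E.card : ℝ) * (16 / ε) * (ε / 16) := by field_simp
      rw [h5]
      nlinarith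
    rw [h2] at h1
    have : L φ ≤ ε / 16 + ε / 16 := h1.trans (by linarith)
    linarith
  refine ⟨1 ⊓ ((4 : ℝ) • φ), ?_, inf_le_left, ?_, ?_⟩
  · refine le_inf ?_ ?_
    · intro x
      exact zero_le_one
    · intro x
      have := hφnn x
      change 0 ≤ 4 * φ x
      have h2 : (0 : ℝ) ≤ φ x := this
      linarith
  · have h1 : ∀ᶠ x in 𝓝 (0 : Tor d), (1 / 4 : ℝ) < φ x := by
      refine φ.continuous.continuousAt.eventually (lt_mem_nhds ?_)
      rw [hφ0]
      norm_num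
    refine h1.mono fun x hx => ?_
    change min 1 (4 * φ x) = 1
    rw [min_eq_left]
    linarith
  · have h1 : 0 ≤ L ((4 : ℝ) • φ - 1 ⊓ ((4 : ℝ) • φ)) := by
      refine hpos _ ?_
      rw [sub_nonneg]
      exact inf_le_right
    rw [map_sub, map_smul, smul_eq_mul] at h1
    linarith

end Pool.Agent.H13.DM
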