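import Mathlib
import Pool.Agent.H13.DM.RelT.Defs

/-!
MP_9d29f5_al, project DM, block C, file Schoenberg (job DM-SCHOEN).
Prove the three theorems in place (helper lemmas welcome).

PAPER PROOFS.
(1) gauss_kernel: for points x_g of a real inner product space the matrix exp(-tau |x_g - x_h|^2) is positive
semidefinite: it equals exp(-tau |x_g|^2) exp(-tau |x_h|^2) exp(2 tau <x_g, x_h>); after replacing c_g by
c_g exp(-tau |x_g|^2) one needs sum c_g c_h exp(2 tau <x_g,x_h>) >= 0; expand exp in its power series; the k-th term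
is (2 tau)^k / k! * sum c_g c_h <x_g,x_h>^k >= 0 because the Hadamard power of a Gram matrix is positive semidefinite
(Schur product theorem, Matrix.PosSemidef.hadamard or similar in Mathlib; or induct on k with the statement for all
families: sum c_g c_h M_gh <x_g,x_h> with <x_g,x_h> = sum_i (x_g)_i (x_h)_i in an orthonormal basis of the finite
dimensional span of the x_g).
(2) gauss_posDef: norm (alpha (g^-1 h) 0) = dist (alpha (g^-1) (alpha h 0)) (alpha (g^-1) (alpha g 0)) = dist (alpha h 0) (alpha g 0),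
(alpha (g^-1) is an isometry and inverse to alpha g). f 1 = 1 since alpha 1 0 = 0.
norm (alpha g^-1 0) = dist (alpha g^-1 0) 0 = dist 0 (alpha g 0).
(3) decay: a injective, action proper: for every c > 0 the set of v with exp(-tau |alpha (a v) 0|^2) >= c is finite.
-/
set_option autoImplicit false

namespace Pool.Agent.H13.DM

open Filter Topology

theorem Schoen_pow_psd {ι E : Type*} [Finite ι] [NormedAddCommGroup E] [InnerProductSpace ℝ E]
    (x : ι → E) (k : ℕ) :
    (Matrix.of fun g h : ι => (inner ℝ (x g) (x h) : ℝ) ^ k).PosSemidef := by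
  induction k with
  | zero =>
    refine ⟨?_, fun y => ?_⟩
    · ext i j; simp
    · have : (y.sum fun i xi => y.sum fun j xj => star xi *
          (Matrix.of fun g h : ι => (inner ℝ (x g) (x h) : ℝ) ^ 0) i j * xj) =
          (∑ i ∈ y.support, y i) * (∑ i ∈ y.support, y i) := by
        rw [Finset.sum_mul_sum]
        simp [Finsupp.sum]
      rw [this]
      exact mul_self_nonneg _
  | succ k ih =>
    have h := ih.hadamard (Matrix.posSemidef_gram ℝ x)
    have e : (Matrix.of fun g h : ι => (inner ℝ (x g) (x h) : ℝ) ^ (k + 1)) =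
        Matrix.hadamard (Matrix.of fun g h : ι => (inner ℝ (x g) (x h) : ℝ) ^ k)
          (Matrix.gram ℝ x) := by
      ext i j
      simp [Matrix.hadamard_apply, pow_succ, Matrix.gram_apply]
    rw [e]
    exact h

theorem Schoen_pow {ι E : Type*} [NormedAddCommGroup E] [InnerProductSpace ℝ E]
    (s : Finset ι) (x : ι → E) (y : ι → ℝ) (k : ℕ) :
    0 ≤ ∑ g ∈ s, ∑ h ∈ s, y g * y h * (inner ℝ (x g) (x h) : ℝ) ^ k := by
  have h := (Schoen_pow_psd (fun i : s => x i) k).dotProduct_mulVec_nonneg (fun i : s => y i)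
  have e : ∑ g ∈ s, ∑ h ∈ s, y g * y h * (inner ℝ (x g) (x h) : ℝ) ^ k =
      ∑ g : s, ∑ h : s, y g * y h * (inner ℝ (x g) (x h) : ℝ) ^ k := by
    rw [← Finset.sum_coe_sort s]
    refine Finset.sum_congr rfl fun g _ => ?_
    rw [← Finset.sum_coe_sort s]
  rw [e]
  refine le_of_le_of_eq h ?_
  simp only [dotProduct, Matrix.mulVec, Matrix.of_apply, Pi.star_apply, star_trivial,
    Finset.mul_sum]
  refine Finset.sum_congr rfl fun g _ => Finset.sum_congr rfl fun h _ => ?_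
  ring

theorem Schoen_exp {ι E : Type*} [NormedAddCommGroup E] [InnerProductSpace ℝ E]
    (s : Finset ι) (x : ι → E) (y : ι → ℝ) (t : ℝ) (ht : 0 ≤ t) :
    0 ≤ ∑ g ∈ s, ∑ h ∈ s, y g * y h * Real.exp (t * inner ℝ (x g) (x h)) := by
  have h1 : ∀ u : ℝ, HasSum (fun k : ℕ => u ^ k / (k.factorial : ℝ)) (Real.exp u) := by
    intro u
    rw [Real.exp_eq_exp_ℝ]
    exact NormedSpace.expSeries_div_hasSum_exp u
  have h2 : HasSum (fun k : ℕ => ∑ g ∈ s, ∑ h ∈ s, y g * y h *
      ((t * inner ℝ (x g) (x h)) ^ k / (k.factorial : ℝ)))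
      (∑ g ∈ s, ∑ h ∈ s, y g * y h * Real.exp (t * inner ℝ (x g) (x h))) :=
    hasSum_sum fun g _ => hasSum_sum fun h _ => (h1 _).mul_left _
  refine h2.nonneg fun k => ?_
  have e : ∑ g ∈ s, ∑ h ∈ s, y g * y h *
      ((t * inner ℝ (x g) (x h)) ^ k / (k.factorial : ℝ)) =
      (t ^ k / (k.factorial : ℝ)) *
        ∑ g ∈ s, ∑ h ∈ s, y g * y h * (inner ℝ (x g) (x h) : ℝ) ^ k := by
    rw [Finset.mul_sum]
    refine Finset.sum_congr rfl fun g _ => ?_
    rw [Finset.mul_sum]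
    refine Finset.sum_congr rfl fun h _ => ?_
    rw [mul_pow]
    ring
  rw [e]
  exact mul_nonneg (by positivity) (Schoen_pow s x y k)

theorem gauss_kernel {ι E : Type*} [NormedAddCommGroup E] [InnerProductSpace ℝ E] (τ : ℝ)
    (hτ : 0 ≤ τ) (s : Finset ι) (x : ι → E) (c : ι → ℝ) :
    0 ≤ ∑ g ∈ s, ∑ h ∈ s, c g * c h * Real.exp (-τ * ‖x h - x g‖ ^ 2) := by
  have h := Schoen_exp s x (fun g => c g * Real.exp (-τ * ‖x g‖ ^ 2)) (2 * τ) (by positivity)
  refine le_of_le_of_eq h ?_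
  refine Finset.sum_congr rfl fun g _ => Finset.sum_congr rfl fun h _ => ?_
  have e : -τ * ‖x h - x g‖ ^ 2 = -τ * ‖x g‖ ^ 2 + -τ * ‖x h‖ ^ 2 +
      2 * τ * inner ℝ (x g) (x h) := by
    rw [norm_sub_sq_real, real_inner_comm]
    ring
  rw [e, Real.exp_add, Real.exp_add]
  ring

theorem Schoen_dist {Q E : Type*} [Group Q] [NormedAddCommGroup E] [InnerProductSpace ℝ E]
    (α : Q →* (E ≃ᵃⁱ[ℝ] E)) (g h : Q) : ‖α (g⁻¹ * h) 0‖ = ‖α h 0 - α g 0‖ := by
  have h1 : α (g⁻¹ * h) 0 = α g⁻¹ (α h 0) := by rw [map_mul]; rfl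
  have h2 : (0 : E) = α g⁻¹ (α g 0) := by
    have : α g⁻¹ (α g 0) = (α g⁻¹ * α g) 0 := rfl
    rw [this, ← map_mul, inv_mul_cancel, map_one]
    rfl
  calc ‖α (g⁻¹ * h) 0‖ = dist (α g⁻¹ (α h 0)) 0 := by rw [h1, dist_zero_right]
    _ = dist (α g⁻¹ (α h 0)) (α g⁻¹ (α g 0)) := by rw [← h2]
    _ = dist (α h 0) (α g 0) := (α g⁻¹).dist_map _ _
    _ = ‖α h 0 - α g 0‖ := dist_eq_norm _ _

theorem gauss_posDef {Q E : Type*} [Group Q] [NormedAddCommGroup E] [InnerProductSpace ℝ E]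
    (α : Q →* (E ≃ᵃⁱ[ℝ] E)) (τ : ℝ) (hτ : 0 ≤ τ) :
    PosDefFun (fun g => Real.exp (-τ * ‖α g 0‖ ^ 2)) := by
  have h1 : α 1 0 = 0 := by rw [map_one]; rfl
  refine ⟨by simp, fun g => ?_, fun s c => ?_⟩
  · have := Schoen_dist α g 1
    rw [mul_one, h1, zero_sub, norm_neg] at this
    simp only [this]
  · simp only [Schoen_dist]
    exact gauss_kernel τ hτ s (fun g => α g 0) c

theorem gauss_decay {Q E : Type*} [Group Q] [NormedAddCommGroup E] [InnerProductSpace ℝ E]
    {d : ℕ} (a : Multiplicative (Fin d → ℤ) →* Q) (ha : Function.Injective a)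
    (α : Q →* (E ≃ᵃⁱ[ℝ] E)) (hα : ∀ (x : E) (r : ℝ), {h : Q | ‖α h x‖ ≤ r}.Finite)
    (τ : ℝ) (hτ : 0 < τ) :
    Tendsto (fun v : Fin d → ℤ => Real.exp (-τ * ‖α (a (Multiplicative.ofAdd v)) 0‖ ^ 2))
      cofinite (𝓝 0) := by
  have h1 : Tendsto (fun h : Q => ‖α h 0‖) cofinite atTop := by
    rw [Filter.tendsto_atTop]
    intro r
    rw [Filter.eventually_cofinite]
    refine (hα 0 r).subset fun h hh => ?_
    exact (not_le.1 hh).le
  have hinj : Function.Injective fun v : Fin d → ℤ => a (Multiplicative.ofAdd v) :=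
    ha.comp Multiplicative.ofAdd.injective
  have h2 := h1.comp hinj.tendsto_cofinite
  have h3 : Tendsto (fun v : Fin d → ℤ => τ * ‖α (a (Multiplicative.ofAdd v)) 0‖ ^ 2)
      cofinite atTop :=
    ((Filter.tendsto_pow_atTop (two_ne_zero)).comp h2).const_mul_atTop hτ
  have h4 := Real.tendsto_exp_neg_atTop_nhds_zero.comp h3
  refine h4.congr fun v => ?_
  simp [Function.comp]

end Pool.Agent.H13.DM
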