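import Mathlib
import Pool.Agent.H13.DM.RelT.Defs
import Pool.Agent.H13.DM.RelT.Schoenberg
import Pool.Agent.H13.DM.RelT.Functional
import Pool.Agent.H13.DM.RelT.NoAtom
import Pool.Agent.H13.DM.RelT.Per

/-!
MP_9d29f5_al, project DM, block C, file Contra (job DM-CONTRA).
Prove not_atmenable_of_H in place, from the stubs of the imported files (helper lemmas welcome).

PAPER PROOF. We may assume delta <= 4 (automatic: the left side of H is <= 4 in absolute value; if there is no x /= 0, i.e. d = 0, excluded).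
Let alpha be a proper action, f_tau(g) = exp(-tau |alpha g 0|^2), tau > 0. By Schoenberg f_tau is PosDefFun; let L = L_tau be the functional of exists_functional
and e1 = 6 sqrt(1 - f_tau s), e2 = 6 sqrt (1 - f_tau t). Write S x for the real vector S^T x (transpose mulVec).
Let R >= 1 with norm (S^T x) <= R norm x, norm (T^T x) <= R norm x. r = 1/(8 R), so r <= 1/8. C = the constant of far for r.
By gauss_decay and no_atom there is chi with L chi < eta (eta > 0 arbitrary). Let beta(x) be continuous, 0 <= beta <= 1, beta = 1 for norm x <= 1/8, beta = 0 for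
norm x >= 1/4 (e.g. max 0 (min 1 (2 - 8 norm x))). Let g_i(x) = phi_i(x) beta(x) (1 - chi(toTor x)) for x /= 0, g_i(0) = 0.
g_i is continuous (phi_i is continuous off 0, near 0 the last factor vanishes since toTor is continuous and toTor 0 = 0), |g_i| <= 1, g_i = 0 for norm x >= 1/4. Let G_i be
from exists_per, norm G_i <= 1. Put D = G_1 o dualMap S - G_1 + G_2 o dualMap T - G_2.
CLAIM: pointwise D >= delta - (chi o dualMap S + 2 chi + chi o dualMap T) - 8 C sum_j (1 - cosf e_j).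
Let y in the torus. If y is far (second alternative of far) then the right side is <= delta - 8 <= -4 <= D. Otherwise y = toTor x, norm x < r, and S^T x, T^T x have norm < 1/8;
so dualMap S y = toTor (S^T x) and D(y) = g_1(S^T x) - g_1(x) + g_2(T^T x) - g_2(x) (norms < 3/4) and beta = 1 at all these points. If x = 0: D(y) = 0 (S^T 0 = 0) and chi = 1 at 0 so
the right side is <= delta - 4 <= 0. If x /= 0: in case S^T x /= 0 and T^T x /= 0:
D(y) = [phi_1(S^T x) - phi_1(x) + phi_2(T^T x) - phi_2(x)] - phi_1(S^T x) chi(S y) + phi_1(x) chi(y) - ... >= delta - chi(dualMap S y) - 2 chi(y) - chi(dualMap T y).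
If S^T x = 0 then g_1(S^T x) = 0 while chi(dualMap S y) = chi(0) = 1, so g_1(S^T x) >= phi_1(0) - chi(dualMap S y) still holds (|phi_1| <= 1); the same for T.
(So in all cases g_i(z) >= phi_i(z) - chi(toTor z) and g_i(z) <= phi_i(z) + chi(toTor z) for norm z <= 1/8.)
Apply L: L D <= e1 + e2 (norm G_i <= 1), and L(right side) >= delta - 4 eta - e1 - e2 - 8 C sum_j (1 - f_tau(a e_j)), using L(chi o dualMap S) <= L chi + e1 (norm chi <= 1).
So delta <= 4 eta + 2 e1 + 2 e2 + 8 C sum_j (1 - f_tau(a e_j)). The numbers e1, e2, 1 - f_tau(a e_j) tend to 0 as tau -> 0+; R, C do not depend on tau; eta is arbitrary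
(for every tau separately). Choose tau with 2 e1 + 2 e2 + 8 C sum < delta/2 and then eta = delta/16: contradiction.
-/
set_option autoImplicit false

namespace Pool.Agent.H13.DM

universe v

open Filter Topology

/-- the cut off function -/
noncomputable def Contra_beta {d : ℕ} (x : Fin d → ℝ) : ℝ := max 0 (min 1 (2 - 8 * ‖x‖))

theorem Contra_beta_nonneg {d : ℕ} (x : Fin d → ℝ) : 0 ≤ Contra_beta x := le_max_left _ _

theorem Contra_beta_le {d : ℕ} (x : Fin d → ℝ) : Contra_beta x ≤ 1 :=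
  max_le zero_le_one (min_le_left _ _)

theorem Contra_beta_one {d : ℕ} {x : Fin d → ℝ} (h : ‖x‖ ≤ 1 / 8) : Contra_beta x = 1 := by
  unfold Contra_beta
  rw [min_eq_left (by linarith), max_eq_right zero_le_one]

theorem Contra_beta_zero {d : ℕ} {x : Fin d → ℝ} (h : 1 / 4 ≤ ‖x‖) : Contra_beta x = 0 := by
  unfold Contra_beta
  apply max_eq_left
  exact (min_le_right _ _).trans (by linarith)

theorem Contra_beta_cont {d : ℕ} : Continuous (Contra_beta (d := d)) := by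
  unfold Contra_beta
  fun_prop

theorem Contra_toTor_zero {d : ℕ} : toTor (0 : Fin d → ℝ) = 0 := by
  funext i
  simp [toTor]

/-- the truncated function and its periodisation -/
theorem Contra_G {d : ℕ} (φ : (Fin d → ℝ) → ℝ) (hc : ContinuousOn φ {0}ᶜ) (hb : ∀ x, |φ x| ≤ 1)
    (χ : C(Tor d, ℝ)) (h0 : 0 ≤ χ) (h1 : χ ≤ 1) (hev : ∀ᶠ x in 𝓝 (0 : Tor d), χ x = 1) :
    ∃ G : C(Tor d, ℝ), ‖G‖ ≤ 1 ∧ G 0 = 0 ∧ ∀ x : Fin d → ℝ, ‖x‖ ≤ 1 / 8 →
      φ x - χ (toTor x) ≤ G (toTor x) ∧ G (toTor x) ≤ φ x + χ (toTor x) := by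
  have hχ0 : ∀ y, 0 ≤ χ y := fun y => h0 y
  have hχ1 : ∀ y, χ y ≤ 1 := fun y => h1 y
  let g : (Fin d → ℝ) → ℝ := fun x => φ x * (Contra_beta x * (1 - χ (toTor x)))
  have hfac : Continuous fun x : Fin d → ℝ => Contra_beta x * (1 - χ (toTor x)) :=
    Contra_beta_cont.mul (continuous_const.sub (χ.continuous.comp continuous_toTor))
  have hg : Continuous g := by
    rw [continuous_iff_continuousAt]
    intro x
    by_cases hx : x = 0
    · subst hx
      have h2 : ∀ᶠ x in 𝓝 (0 : Fin d → ℝ), χ (toTor x) = 1 := by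
        have h3 : Tendsto (toTor (d := d)) (𝓝 0) (𝓝 0) := by
          have := (continuous_toTor (d := d)).tendsto 0
          rwa [Contra_toTor_zero] at this
        exact h3.eventually hev
      have h4 : (fun _ => (0 : ℝ)) =ᶠ[𝓝 (0 : Fin d → ℝ)] g := by
        filter_upwards [h2] with x hx
        simp only [g]
        rw [hx, sub_self, mul_zero, mul_zero]
      exact continuousAt_const.congr h4
    · have h2 : ContinuousAt φ x := hc.continuousAt (isOpen_compl_singleton.mem_nhds hx)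
      exact h2.mul hfac.continuousAt
  have hfac0 : ∀ x, 0 ≤ Contra_beta x * (1 - χ (toTor x)) := fun x =>
    mul_nonneg (Contra_beta_nonneg x) (sub_nonneg.2 (hχ1 _))
  have hfac1 : ∀ x, Contra_beta x * (1 - χ (toTor x)) ≤ 1 := fun x =>
    mul_le_one₀ (Contra_beta_le x) (sub_nonneg.2 (hχ1 _)) (by linarith [hχ0 (toTor x)])
  obtain ⟨G, hG1, hG2⟩ := exists_per g hg (fun x hx => by
    simp only [g]
    rw [Contra_beta_zero hx, zero_mul, mul_zero]) 1 (fun x => by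
    simp only [g]
    rw [abs_mul, abs_of_nonneg (hfac0 x)]
    exact mul_le_one₀ (hb x) (hfac0 x) (hfac1 x))
  refine ⟨G, hG2, ?_, fun x hx => ?_⟩
  · have h2 := hG1 0 (by rw [norm_zero]; norm_num)
    rw [Contra_toTor_zero] at h2
    rw [h2]
    simp only [g]
    rw [Contra_toTor_zero, hev.self_of_nhds, sub_self, mul_zero, mul_zero]
  · rw [hG1 x (by linarith)]
    simp only [g]
    rw [Contra_beta_one hx, one_mul]
    have h2 := abs_le.1 (hb x)
    have h3 := hχ0 (toTor x)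
    constructor <;> nlinarith

theorem Contra_norm {d : ℕ} (M : Matrix (Fin d) (Fin d) ℤ) : ∃ R : ℝ, 1 ≤ R ∧
    ∀ x : Fin d → ℝ, ‖(M.map (Int.cast : ℤ → ℝ)).transpose.mulVec x‖ ≤ R * ‖x‖ := by
  let A := LinearMap.toContinuousLinearMap
    (Matrix.mulVecLin (M.map (Int.cast : ℤ → ℝ)).transpose)
  refine ⟨max 1 ‖A‖, le_max_left _ _, fun x => ?_⟩
  have h1 : ‖A x‖ ≤ ‖A‖ * ‖x‖ := A.le_opNorm x
  have h2 : ‖A‖ * ‖x‖ ≤ max 1 ‖A‖ * ‖x‖ :=
    mul_le_mul_of_nonneg_right (le_max_right _ _) (norm_nonneg _)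
  exact h1.trans h2

theorem Contra_cosf {d : ℕ} (v : Fin d → ℤ) (y : Tor d) : cosf v y ≤ 1 := by
  change (UnitAddTorus.mFourier v y).re ≤ 1
  refine (Complex.re_le_norm _).trans ?_
  have h := (UnitAddTorus.mFourier v).norm_coe_le_norm y
  rwa [UnitAddTorus.mFourier_norm] at h

theorem not_atmenable_of_H {Q : Type*} [Group Q] {d : ℕ} (hd : 0 < d)
    (a : Multiplicative (Fin d → ℤ) →* Q) (ha : Function.Injective a) (s t : Q)
    (S T : Matrix (Fin d) (Fin d) ℤ)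
    (hs : ∀ v : Fin d → ℤ, s * a (Multiplicative.ofAdd v) * s⁻¹
      = a (Multiplicative.ofAdd (S.mulVec v)))
    (ht : ∀ v : Fin d → ℤ, t * a (Multiplicative.ofAdd v) * t⁻¹
      = a (Multiplicative.ofAdd (T.mulVec v)))
    (φ₁ φ₂ : (Fin d → ℝ) → ℝ) (hc₁ : ContinuousOn φ₁ {0}ᶜ) (hc₂ : ContinuousOn φ₂ {0}ᶜ)
    (hb₁ : ∀ x, |φ₁ x| ≤ 1) (hb₂ : ∀ x, |φ₂ x| ≤ 1) (δ : ℝ) (hδ : 0 < δ)
    (H : ∀ x : Fin d → ℝ, x ≠ 0 →
      δ ≤ φ₁ ((S.map (Int.cast : ℤ → ℝ)).transpose.mulVec x) - φ₁ x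
        + φ₂ ((T.map (Int.cast : ℤ → ℝ)).transpose.mulVec x) - φ₂ x) :
    ¬ ATMenable.{_, v} Q := by
  rintro ⟨E, _, _, _, α, hα⟩
  -- `δ ≤ 4`
  have hδ4 : δ ≤ 4 := by
    have hx : (fun _ : Fin d => (1 : ℝ)) ≠ 0 := by
      intro h
      have := congrFun h ⟨0, hd⟩
      simp at this
    have h := H _ hx
    have a1 := abs_le.1 (hb₁ ((S.map (Int.cast : ℤ → ℝ)).transpose.mulVec fun _ => (1 : ℝ)))
    have a2 := abs_le.1 (hb₁ fun _ => (1 : ℝ))
    have a3 := abs_le.1 (hb₂ ((T.map (Int.cast : ℤ → ℝ)).transpose.mulVec fun _ => (1 : ℝ)))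
    have a4 := abs_le.1 (hb₂ fun _ => (1 : ℝ))
    linarith
  obtain ⟨R₁, hR₁, hS⟩ := Contra_norm S
  obtain ⟨R₂, hR₂, hT⟩ := Contra_norm T
  set R : ℝ := max R₁ R₂ with hR
  have hR1 : 1 ≤ R := hR₁.trans (le_max_left _ _)
  set r : ℝ := 1 / (8 * R) with hr
  have hr0 : 0 < r := by positivity
  have hRr : R * r = 1 / 8 := by rw [hr]; field_simp
  have hr8 : r ≤ 1 / 8 := by nlinarith
  obtain ⟨C, hC0, hfar⟩ := far (d := d) r hr0
  let f : ℝ → Q → ℝ := fun τ g => Real.exp (-τ * ‖α g 0‖ ^ 2)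
  let av : (Fin d → ℤ) → Q := fun v => a (Multiplicative.ofAdd v)
  -- choice of `τ`
  have hψ : ∃ τ : ℝ, 0 < τ ∧ 12 * Real.sqrt (1 - f τ s) + 12 * Real.sqrt (1 - f τ t)
      + 8 * C * ∑ j : Fin d, (1 - f τ (av (Pi.single j 1))) < δ / 2 := by
    let ψ : ℝ → ℝ := fun τ => 12 * Real.sqrt (1 - f τ s) + 12 * Real.sqrt (1 - f τ t)
      + 8 * C * ∑ j : Fin d, (1 - f τ (av (Pi.single j 1)))
    have hcont : Continuous ψ := by
      simp only [ψ, f]
      fun_prop
    have h0 : ψ 0 = 0 := by simp [ψ, f]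
    have h1 : ∀ᶠ τ in 𝓝 (0 : ℝ), ψ τ < δ / 2 := by
      have := hcont.tendsto 0
      rw [h0] at this
      exact this.eventually (gt_mem_nhds (by linarith))
    have h2 : ∀ᶠ τ in 𝓝[>] (0 : ℝ), 0 < τ ∧ ψ τ < δ / 2 := by
      filter_upwards [h1.filter_mono nhdsWithin_le_nhds, self_mem_nhdsWithin] with τ a b
      exact ⟨b, a⟩
    exact h2.exists
  obtain ⟨τ, hτ, hsmall⟩ := hψ
  have hpd : PosDefFun (f τ) := gauss_posDef α τ hτ.le
  obtain ⟨L, hpos, hL1, hcos, hq⟩ := exists_functional a (f τ) hpd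
  have hmono : ∀ φ ψ : C(Tor d, ℝ), φ ≤ ψ → L φ ≤ L ψ := by
    intro φ ψ h
    have h1 := hpos (ψ - φ) (sub_nonneg.2 h)
    rw [map_sub] at h1
    linarith
  have hf1 : ∀ g, f τ g ≤ 1 := fun g => by
    simp only [f]
    rw [Real.exp_le_one_iff]
    have : 0 ≤ ‖α g 0‖ ^ 2 := by positivity
    nlinarith
  have hf0 : ∀ g, 0 ≤ f τ g := fun g => (Real.exp_pos _).le
  obtain ⟨χ, hχ0, hχ1, hev, hLχ⟩ := no_atom hd L hpos (fun v => f τ (av v)) hcos
    (fun v => by rw [abs_of_nonneg (hf0 _)]; exact hf1 _) (gauss_decay a ha α hα τ hτ)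
    (δ / 16) (by linarith)
  obtain ⟨G₁, hG₁n, hG₁0, hG₁⟩ := Contra_G φ₁ hc₁ hb₁ χ hχ0 hχ1 hev
  obtain ⟨G₂, hG₂n, hG₂0, hG₂⟩ := Contra_G φ₂ hc₂ hb₂ χ hχ0 hχ1 hev
  have hχn : ‖χ‖ ≤ 1 := by
    refine (ContinuousMap.norm_le _ zero_le_one).2 fun y => ?_
    have h1 : 0 ≤ χ y := hχ0 y
    have h2 : χ y ≤ 1 := hχ1 y
    rw [Real.norm_eq_abs, abs_of_nonneg h1]
    exact h2
  set e₁ : ℝ := 6 * Real.sqrt (1 - f τ s) with he₁
  set e₂ : ℝ := 6 * Real.sqrt (1 - f τ t) with he₂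
  have he₁0 : 0 ≤ e₁ := by positivity
  have he₂0 : 0 ≤ e₂ := by positivity
  have hqS : ∀ φ : C(Tor d, ℝ), ‖φ‖ ≤ 1 → |L (φ.comp (dualMap S)) - L φ| ≤ e₁ := fun φ h =>
    (hq s S hs φ).trans (mul_le_of_le_one_right he₁0 h)
  have hqT : ∀ φ : C(Tor d, ℝ), ‖φ‖ ≤ 1 → |L (φ.comp (dualMap T)) - L φ| ≤ e₂ := fun φ h =>
    (hq t T ht φ).trans (mul_le_of_le_one_right he₂0 h)
  have hGb : ∀ (G : C(Tor d, ℝ)), ‖G‖ ≤ 1 → ∀ y, -1 ≤ G y ∧ G y ≤ 1 := by
    intro G hG y
    have := (G.norm_coe_le_norm y).trans hG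
    rw [Real.norm_eq_abs] at this
    exact abs_le.1 this
  -- the pointwise inequality
  have hpt : ∀ y : Tor d, δ - (χ (dualMap S y) + 2 * χ y + χ (dualMap T y))
      - 8 * C * ∑ j : Fin d, (1 - cosf (Pi.single j 1) y)
      ≤ G₁ (dualMap S y) - G₁ y + (G₂ (dualMap T y) - G₂ y) := by
    intro y
    have hsum : 0 ≤ ∑ j : Fin d, (1 - cosf (Pi.single j 1) y) :=
      Finset.sum_nonneg fun j _ => sub_nonneg.2 (Contra_cosf _ _)
    have x1 : 0 ≤ χ (dualMap S y) := hχ0 _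
    have x2 : 0 ≤ χ y := hχ0 _
    have x3 : 0 ≤ χ (dualMap T y) := hχ0 _
    rcases hfar y with ⟨x, hx, rfl⟩ | hy
    · have hSx : ‖(S.map (Int.cast : ℤ → ℝ)).transpose.mulVec x‖ ≤ 1 / 8 := by
        refine (hS x).trans ?_
        have h1 : R₁ * ‖x‖ ≤ R * r :=
          mul_le_mul (le_max_left _ _) hx.le (norm_nonneg _) (by linarith)
        linarith
      have hTx : ‖(T.map (Int.cast : ℤ → ℝ)).transpose.mulVec x‖ ≤ 1 / 8 := by
        refine (hT x).trans ?_
        have h1 : R₂ * ‖x‖ ≤ R * r :=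
          mul_le_mul (le_max_right _ _) hx.le (norm_nonneg _) (by linarith)
        linarith
      have hx8 : ‖x‖ ≤ 1 / 8 := hx.le.trans hr8
      have hCs := mul_nonneg (mul_nonneg (show (0 : ℝ) ≤ 8 by norm_num) hC0) hsum
      rw [toTor_dual, toTor_dual] at *
      by_cases hx0 : x = 0
      · subst hx0
        rw [Matrix.mulVec_zero, Matrix.mulVec_zero, Contra_toTor_zero] at *
        rw [hG₁0, hG₂0, hev.self_of_nhds]
        linarith
      · have h1 := H x hx0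
        have h2 := (hG₁ _ hSx).1
        have h3 := (hG₁ _ hx8).2
        have h4 := (hG₂ _ hTx).1
        have h5 := (hG₂ _ hx8).2
        linarith
    · have h1 := (hGb G₁ hG₁n (dualMap S y)).1
      have h2 := (hGb G₁ hG₁n y).2
      have h3 := (hGb G₂ hG₂n (dualMap T y)).1
      have h4 := (hGb G₂ hG₂n y).2
      linarith
  -- apply `L`
  have hL := hmono
    ((δ • (1 : C(Tor d, ℝ))) - (χ.comp (dualMap S) + (2 : ℝ) • χ + χ.comp (dualMap T))
      - (8 * C) • ∑ j : Fin d, ((1 : C(Tor d, ℝ)) - cosf (Pi.single j 1)))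
    (G₁.comp (dualMap S) - G₁ + (G₂.comp (dualMap T) - G₂)) (by
      intro y
      have h1 := hpt y
      have h2 : ((δ • (1 : C(Tor d, ℝ))) - (χ.comp (dualMap S) + (2 : ℝ) • χ + χ.comp (dualMap T))
          - (8 * C) • ∑ j : Fin d, ((1 : C(Tor d, ℝ)) - cosf (Pi.single j 1))) y
          = δ - (χ (dualMap S y) + 2 * χ y + χ (dualMap T y))
          - 8 * C * ∑ j : Fin d, (1 - cosf (Pi.single j 1) y) := by
        simp only [ContinuousMap.sub_apply, ContinuousMap.add_apply, ContinuousMap.smul_apply,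
          ContinuousMap.comp_apply, ContinuousMap.sum_apply, ContinuousMap.one_apply, smul_eq_mul,
          mul_one]
      change ((δ • (1 : C(Tor d, ℝ))) - (χ.comp (dualMap S) + (2 : ℝ) • χ + χ.comp (dualMap T))
          - (8 * C) • ∑ j : Fin d, ((1 : C(Tor d, ℝ)) - cosf (Pi.single j 1))) y
          ≤ G₁ (dualMap S y) - G₁ y + (G₂ (dualMap T y) - G₂ y)
      rw [h2]
      exact h1)
  simp only [map_sub, map_add, map_smul, map_sum, smul_eq_mul, hL1, mul_one, hcos] at hL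
  have k1 := abs_le.1 (hqS G₁ hG₁n)
  have k2 := abs_le.1 (hqT G₂ hG₂n)
  have k3 := abs_le.1 (hqS χ hχn)
  have k4 := abs_le.1 (hqT χ hχn)
  have k5 : 8 * C * ∑ j : Fin d, (1 - f τ (av (Pi.single j 1)))
      = 8 * C * ∑ j : Fin d, (1 - f τ (a (Multiplicative.ofAdd (Pi.single j 1)))) := rfl
  rw [k5] at hsmall
  linarith

end Pool.Agent.H13.DM
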