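import Mathlib
import Pool.Agent.H13.DM.RelT.Defs
import Pool.Agent.H13.DM.RelT.Contra

/-!
MP_9d29f5_al, project DM, block C, file Hyp (job DM-HYP).
Prove exists_phi and not_atmenable in place (helper lemmas welcome; Contra may be cited as a stub).

PAPER PROOF of exists_phi. Let p_i(x) = norm(P_i x)^2, q_i(x) = norm(Q_i x)^2, phi_i(x) = p_i/(p_i + q_i) (0 if x = 0). Since (P_i,Q_i) is injective p_i + q_i > 0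
for x /= 0, so phi_i is continuous off 0, 0 <= phi_i <= 1. With L = norm(l_i)^2 > 1 > m = norm(m_i)^2 (for x /= 0, S x := A_i x satisfies p(S x) = L p, q(S x) = m q):
phi(S x) - phi(x) = L p/(L p + m q) - p/(p+q) = p q (L - m)/((L p + m q)(p+q)) >= 0, with equality iff p q = 0. (L p + m q > 0: m may be 0, then L p + m q = 0 iff p = 0. In that case
S x = 0 or P = 0; to avoid this we assume m_i /= 0, hypothesis hm0.) So D(x) = sum of the two differences is > 0 for x /= 0 by hne. D is continuous off 0 and homogeneous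
of degree 0 (D(c x) = D(x) for c > 0), the unit sphere (of the sup norm of Fin d -> R) is compact, so D >= delta > 0. (If the sphere is empty take delta = 1.)
not_atmenable: combine with not_atmenable_of_H, where A_1 = S^T, A_2 = T^T as real linear maps.
-/
set_option autoImplicit false

namespace Pool.Agent.H13.DM

universe v

/-- the test function -/
noncomputable def hypPhi {d : ℕ} (P Q : (Fin d → ℝ) →ₗ[ℝ] ℂ) (x : Fin d → ℝ) : ℝ :=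
  ‖P x‖ ^ 2 / (‖P x‖ ^ 2 + ‖Q x‖ ^ 2)

theorem hypPhi_abs {d : ℕ} (P Q : (Fin d → ℝ) →ₗ[ℝ] ℂ) (x : Fin d → ℝ) :
    |hypPhi P Q x| ≤ 1 := by
  unfold hypPhi
  rw [abs_of_nonneg (by positivity)]
  apply div_le_one_of_le₀
  · have := sq_nonneg ‖Q x‖
    linarith
  · positivity

theorem hypPhi_pos {d : ℕ} (P Q : (Fin d → ℝ) →ₗ[ℝ] ℂ) (hi : ∀ x, P x = 0 → Q x = 0 → x = 0)
    {x : Fin d → ℝ} (hx : x ≠ 0) : 0 < ‖P x‖ ^ 2 + ‖Q x‖ ^ 2 := by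
  by_cases h : P x = 0
  · have h2 : Q x ≠ 0 := fun h2 => hx (hi x h h2)
    have : 0 < ‖Q x‖ := norm_pos_iff.2 h2
    positivity
  · have : 0 < ‖P x‖ := norm_pos_iff.2 h
    positivity

theorem hypPhi_cont {d : ℕ} (P Q : (Fin d → ℝ) →ₗ[ℝ] ℂ)
    (hi : ∀ x, P x = 0 → Q x = 0 → x = 0) : ContinuousOn (hypPhi P Q) {0}ᶜ := by
  have hP : Continuous P := P.continuous_of_finiteDimensional
  have hQ : Continuous Q := Q.continuous_of_finiteDimensional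
  unfold hypPhi
  refine ContinuousOn.div ?_ ?_ ?_
  · exact (hP.norm.pow 2).continuousOn
  · exact ((hP.norm.pow 2).add (hQ.norm.pow 2)).continuousOn
  · intro x hx
    exact (hypPhi_pos P Q hi hx).ne'

theorem hypPhi_smul {d : ℕ} (P Q : (Fin d → ℝ) →ₗ[ℝ] ℂ) {c : ℝ} (hc : c ≠ 0)
    (x : Fin d → ℝ) : hypPhi P Q (c • x) = hypPhi P Q x := by
  unfold hypPhi
  rw [map_smul, map_smul, norm_smul, norm_smul, mul_pow, mul_pow, ← mul_add]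
  have h : ‖c‖ ^ 2 ≠ 0 := pow_ne_zero 2 (norm_ne_zero_iff.2 hc)
  exact mul_div_mul_left _ _ h

theorem hypPhi_map_ne {d : ℕ} (A : (Fin d → ℝ) →ₗ[ℝ] (Fin d → ℝ))
    (P Q : (Fin d → ℝ) →ₗ[ℝ] ℂ) (l m : ℂ) (hP : ∀ x, P (A x) = l * P x)
    (hQ : ∀ x, Q (A x) = m * Q x) (hl : 1 < ‖l‖) (hm0 : m ≠ 0)
    (hi : ∀ x, P x = 0 → Q x = 0 → x = 0) {x : Fin d → ℝ} (hx : x ≠ 0) : A x ≠ 0 := by
  intro h
  have hl0 : l ≠ 0 := by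
    rintro rfl
    rw [norm_zero] at hl
    linarith
  have h1 := hP x
  have h2 := hQ x
  rw [h, map_zero] at h1 h2
  exact hx (hi x ((mul_eq_zero.1 h1.symm).resolve_left hl0)
    ((mul_eq_zero.1 h2.symm).resolve_left hm0))

theorem hypPhi_diff_pos {d : ℕ} (A : (Fin d → ℝ) →ₗ[ℝ] (Fin d → ℝ))
    (P Q : (Fin d → ℝ) →ₗ[ℝ] ℂ) (l m : ℂ) (hP : ∀ x, P (A x) = l * P x)
    (hQ : ∀ x, Q (A x) = m * Q x) (hl : 1 < ‖l‖) (hm : ‖m‖ < 1) (hm0 : m ≠ 0)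
    {x : Fin d → ℝ} (hp : P x ≠ 0) (hq : Q x ≠ 0) :
    hypPhi P Q x < hypPhi P Q (A x) := by
  unfold hypPhi
  rw [hP, hQ, norm_mul, norm_mul, mul_pow, mul_pow]
  have h1 : 0 < ‖P x‖ ^ 2 := by
    have : 0 < ‖P x‖ := norm_pos_iff.2 hp
    positivity
  have h2 : 0 < ‖Q x‖ ^ 2 := by
    have : 0 < ‖Q x‖ := norm_pos_iff.2 hq
    positivity
  have hL : 1 < ‖l‖ ^ 2 := by nlinarith [norm_nonneg l]
  have hM : ‖m‖ ^ 2 < 1 := by nlinarith [norm_nonneg m]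
  have hM0 : 0 < ‖m‖ ^ 2 := by
    have : 0 < ‖m‖ := norm_pos_iff.2 hm0
    positivity
  generalize ‖P x‖ ^ 2 = p at *
  generalize ‖Q x‖ ^ 2 = q at *
  generalize ‖l‖ ^ 2 = L at *
  generalize ‖m‖ ^ 2 = M at *
  rw [div_lt_div_iff₀ (by positivity) (by positivity)]
  have h3 : 0 < p * q := mul_pos h1 h2
  have h4 : 0 < p * q * (L - M) := mul_pos h3 (by linarith)
  nlinarith

theorem hypPhi_diff {d : ℕ} (A : (Fin d → ℝ) →ₗ[ℝ] (Fin d → ℝ))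
    (P Q : (Fin d → ℝ) →ₗ[ℝ] ℂ) (l m : ℂ) (hP : ∀ x, P (A x) = l * P x)
    (hQ : ∀ x, Q (A x) = m * Q x) (hl : 1 < ‖l‖) (hm : ‖m‖ < 1) (hm0 : m ≠ 0)
    (x : Fin d → ℝ) : hypPhi P Q x ≤ hypPhi P Q (A x) := by
  by_cases hp : P x = 0
  · have h1 : hypPhi P Q x = 0 := by simp [hypPhi, hp]
    rw [h1]
    unfold hypPhi
    positivity
  by_cases hq : Q x = 0
  · have hl0 : l ≠ 0 := by
      rintro rfl
      rw [norm_zero] at hl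
      linarith
    have h1 : hypPhi P Q (A x) = 1 := by
      unfold hypPhi
      rw [hQ, hq, mul_zero, norm_zero]
      have h2 : P (A x) ≠ 0 := by
        rw [hP]
        exact mul_ne_zero hl0 hp
      have h3 : ‖P (A x)‖ ^ 2 ≠ 0 := pow_ne_zero 2 (norm_ne_zero_iff.2 h2)
      rw [zero_pow two_ne_zero, add_zero, div_self h3]
    rw [h1]
    exact (abs_le.1 (hypPhi_abs P Q x)).2
  · exact (hypPhi_diff_pos A P Q l m hP hQ hl hm hm0 hp hq).le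

theorem exists_phi {d : ℕ} (A₁ A₂ : (Fin d → ℝ) →ₗ[ℝ] (Fin d → ℝ))
    (P₁ Q₁ P₂ Q₂ : (Fin d → ℝ) →ₗ[ℝ] ℂ) (l₁ m₁ l₂ m₂ : ℂ)
    (hP₁ : ∀ x, P₁ (A₁ x) = l₁ * P₁ x) (hQ₁ : ∀ x, Q₁ (A₁ x) = m₁ * Q₁ x)
    (hP₂ : ∀ x, P₂ (A₂ x) = l₂ * P₂ x) (hQ₂ : ∀ x, Q₂ (A₂ x) = m₂ * Q₂ x)
    (hl₁ : 1 < ‖l₁‖) (hm₁ : ‖m₁‖ < 1) (hm₁0 : m₁ ≠ 0)
    (hl₂ : 1 < ‖l₂‖) (hm₂ : ‖m₂‖ < 1) (hm₂0 : m₂ ≠ 0)
    (hi₁ : ∀ x, P₁ x = 0 → Q₁ x = 0 → x = 0) (hi₂ : ∀ x, P₂ x = 0 → Q₂ x = 0 → x = 0)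
    (hne : ∀ x, x ≠ 0 → ¬ ((P₁ x = 0 ∨ Q₁ x = 0) ∧ (P₂ x = 0 ∨ Q₂ x = 0))) :
    ∃ (φ₁ φ₂ : (Fin d → ℝ) → ℝ) (δ : ℝ), ContinuousOn φ₁ {0}ᶜ ∧ ContinuousOn φ₂ {0}ᶜ ∧
      (∀ x, |φ₁ x| ≤ 1) ∧ (∀ x, |φ₂ x| ≤ 1) ∧ 0 < δ ∧
      ∀ x, x ≠ 0 → δ ≤ φ₁ (A₁ x) - φ₁ x + φ₂ (A₂ x) - φ₂ x := by
  have hc₁ := hypPhi_cont P₁ Q₁ hi₁
  have hc₂ := hypPhi_cont P₂ Q₂ hi₂
  by_cases hex : ∃ x : Fin d → ℝ, x ≠ 0
  swap
  · refine ⟨hypPhi P₁ Q₁, hypPhi P₂ Q₂, 1, hc₁, hc₂, hypPhi_abs P₁ Q₁, hypPhi_abs P₂ Q₂,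
      one_pos, ?_⟩
    intro x hx
    exact absurd ⟨x, hx⟩ hex
  · obtain ⟨x₀, hx₀⟩ := hex
    set D : (Fin d → ℝ) → ℝ := fun x => hypPhi P₁ Q₁ (A₁ x) - hypPhi P₁ Q₁ x +
      hypPhi P₂ Q₂ (A₂ x) - hypPhi P₂ Q₂ x with hD
    have hDsmul : ∀ (c : ℝ), c ≠ 0 → ∀ x, D (c • x) = D x := by
      intro c hc x
      simp only [hD, map_smul, hypPhi_smul P₁ Q₁ hc, hypPhi_smul P₂ Q₂ hc]
    have hDpos : ∀ x, x ≠ 0 → 0 < D x := by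
      intro x hx
      have h1 := hypPhi_diff A₁ P₁ Q₁ l₁ m₁ hP₁ hQ₁ hl₁ hm₁ hm₁0 x
      have h2 := hypPhi_diff A₂ P₂ Q₂ l₂ m₂ hP₂ hQ₂ hl₂ hm₂ hm₂0 x
      have h3 := hne x hx
      by_cases h4 : P₁ x = 0 ∨ Q₁ x = 0
      · have h5 : ¬ (P₂ x = 0 ∨ Q₂ x = 0) := fun h5 => h3 ⟨h4, h5⟩
        rw [not_or] at h5
        have h6 := hypPhi_diff_pos A₂ P₂ Q₂ l₂ m₂ hP₂ hQ₂ hl₂ hm₂ hm₂0 h5.1 h5.2
        simp only [hD]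
        linarith
      · rw [not_or] at h4
        have h6 := hypPhi_diff_pos A₁ P₁ Q₁ l₁ m₁ hP₁ hQ₁ hl₁ hm₁ hm₁0 h4.1 h4.2
        simp only [hD]
        linarith
    have hDc : ContinuousOn D {0}ᶜ := by
      have hA₁ : ContinuousOn (fun x => hypPhi P₁ Q₁ (A₁ x)) {0}ᶜ :=
        hc₁.comp A₁.continuous_of_finiteDimensional.continuousOn
          (fun x hx => hypPhi_map_ne A₁ P₁ Q₁ l₁ m₁ hP₁ hQ₁ hl₁ hm₁0 hi₁ hx)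
      have hA₂ : ContinuousOn (fun x => hypPhi P₂ Q₂ (A₂ x)) {0}ᶜ :=
        hc₂.comp A₂.continuous_of_finiteDimensional.continuousOn
          (fun x hx => hypPhi_map_ne A₂ P₂ Q₂ l₂ m₂ hP₂ hQ₂ hl₂ hm₂0 hi₂ hx)
      exact ((hA₁.sub hc₁).add hA₂).sub hc₂
    have hsub : Metric.sphere (0 : Fin d → ℝ) 1 ⊆ {0}ᶜ := by
      intro x hx h
      rw [Set.mem_singleton_iff] at h
      rw [h, mem_sphere_zero_iff_norm, norm_zero] at hx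
      exact zero_ne_one hx
    have hnorm : ∀ x : Fin d → ℝ, x ≠ 0 → ‖x‖⁻¹ • x ∈ Metric.sphere (0 : Fin d → ℝ) 1 := by
      intro x hx
      have : ‖x‖ ≠ 0 := norm_ne_zero_iff.2 hx
      rw [mem_sphere_zero_iff_norm, norm_smul, norm_inv, norm_norm, inv_mul_cancel₀ this]
    obtain ⟨y, hy, hmin⟩ := (isCompact_sphere (0 : Fin d → ℝ) 1).exists_isMinOn
      ⟨_, hnorm x₀ hx₀⟩ (hDc.mono hsub)
    refine ⟨hypPhi P₁ Q₁, hypPhi P₂ Q₂, D y, hc₁, hc₂, hypPhi_abs P₁ Q₁, hypPhi_abs P₂ Q₂,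
      hDpos y (hsub hy), ?_⟩
    intro x hx
    have h1 := hmin (hnorm x hx)
    have h2 := hDsmul (‖x‖⁻¹) (inv_ne_zero (norm_ne_zero_iff.2 hx)) x
    have h3 : D y ≤ D (‖x‖⁻¹ • x) := h1
    rw [h2] at h3
    exact h3

theorem not_atmenable {Q : Type*} [Group Q] {d : ℕ} (hd : 0 < d)
    (a : Multiplicative (Fin d → ℤ) →* Q) (ha : Function.Injective a) (s t : Q)
    (S T : Matrix (Fin d) (Fin d) ℤ)
    (hs : ∀ v : Fin d → ℤ, s * a (Multiplicative.ofAdd v) * s⁻¹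
      = a (Multiplicative.ofAdd (S.mulVec v)))
    (ht : ∀ v : Fin d → ℤ, t * a (Multiplicative.ofAdd v) * t⁻¹
      = a (Multiplicative.ofAdd (T.mulVec v)))
    (P₁ Q₁ P₂ Q₂ : (Fin d → ℝ) →ₗ[ℝ] ℂ) (l₁ m₁ l₂ m₂ : ℂ)
    (hP₁ : ∀ x, P₁ ((S.map (Int.cast : ℤ → ℝ)).transpose.mulVec x) = l₁ * P₁ x)
    (hQ₁ : ∀ x, Q₁ ((S.map (Int.cast : ℤ → ℝ)).transpose.mulVec x) = m₁ * Q₁ x)
    (hP₂ : ∀ x, P₂ ((T.map (Int.cast : ℤ → ℝ)).transpose.mulVec x) = l₂ * P₂ x)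
    (hQ₂ : ∀ x, Q₂ ((T.map (Int.cast : ℤ → ℝ)).transpose.mulVec x) = m₂ * Q₂ x)
    (hl₁ : 1 < ‖l₁‖) (hm₁ : ‖m₁‖ < 1) (hm₁0 : m₁ ≠ 0)
    (hl₂ : 1 < ‖l₂‖) (hm₂ : ‖m₂‖ < 1) (hm₂0 : m₂ ≠ 0)
    (hi₁ : ∀ x, P₁ x = 0 → Q₁ x = 0 → x = 0) (hi₂ : ∀ x, P₂ x = 0 → Q₂ x = 0 → x = 0)
    (hne : ∀ x, x ≠ 0 → ¬ ((P₁ x = 0 ∨ Q₁ x = 0) ∧ (P₂ x = 0 ∨ Q₂ x = 0))) :
    ¬ ATMenable.{_, v} Q := by
  obtain ⟨φ₁, φ₂, δ, hc₁, hc₂, hb₁, hb₂, hδ, H⟩ := exists_phi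
    ((S.map (Int.cast : ℤ → ℝ)).transpose.mulVecLin)
    ((T.map (Int.cast : ℤ → ℝ)).transpose.mulVecLin)
    P₁ Q₁ P₂ Q₂ l₁ m₁ l₂ m₂ hP₁ hQ₁ hP₂ hQ₂ hl₁ hm₁ hm₁0 hl₂ hm₂ hm₂0 hi₁ hi₂ hne
  exact not_atmenable_of_H hd a ha s t S T hs ht φ₁ φ₂ hc₁ hc₂ hb₁ hb₂ δ hδ H

end Pool.Agent.H13.DM
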